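import Pool.Agent.GQA.Fil

/-!
# Certificates over a commutative ring of coefficients
-/

set_option linter.unusedSimpArgs false
set_option linter.unusedVariables false
set_option linter.unusedSectionVars false

universe u

namespace Pool.Agent.GQA

section EvM

variable {k : Type*} [Field k] {R : Type*} [Ring R] [Algebra k R] {n m p q s t : ℕ}

lemma evM_apply (v : Fin n → R) (a : Fin p → Fin q → Fin n → k) (i : Fin p) (j : Fin q) :
    evM v a i j = ev v (a i j) := rfl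

lemma mR_eq_evM (c : Fin m → Matrix (Fin n) (Fin n) k) (v : Fin n → R) :
    mR c v = evM v (fun s j i => c s i j) := rfl

lemma mD_eq_evM (c : Fin m → Matrix (Fin n) (Fin n) k) (D : Matrix (Fin m) (Fin m) k)
    (v : Fin n → R) : mD c D v = evM v (fun i s j => ∑ r, D r s * c r i j) := rfl

lemma km_mul_evM (v : Fin n → R) (M : Matrix (Fin p) (Fin q) k) (a : Fin q → Fin s → Fin n → k) :
    km R M * evM v a = evM v (fun i j e => ∑ l, M i l * a l j e) := by
  ext i j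
  rw [km_mul_apply, evM_apply]
  simp only [evM_apply, ← ev_smul, ← ev_sum]
  congr 1
  ext e
  simp [Finset.sum_apply]

lemma evM_mul_km (v : Fin n → R) (a : Fin p → Fin q → Fin n → k) (M : Matrix (Fin q) (Fin s) k) :
    evM v a * km R M = evM v (fun i j e => ∑ l, a i l e * M l j) := by
  ext i j
  rw [mul_km_apply, evM_apply]
  simp only [evM_apply, ← ev_smul, ← ev_sum]
  congr 1
  ext e
  simp [Finset.sum_apply, mul_comm]

lemma smul_evM (v : Fin n → R) (x : k) (a : Fin p → Fin q → Fin n → k) :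
    x • evM v a = evM v (fun i j e => x * a i j e) := by
  ext i j
  rw [Matrix.smul_apply, evM_apply, evM_apply, ← ev_smul]
  rfl

lemma evM_sub (v : Fin n → R) (a b : Fin p → Fin q → Fin n → k) :
    evM v a - evM v b = evM v (fun i j e => a i j e - b i j e) := by
  ext i j
  rw [Matrix.sub_apply, evM_apply, evM_apply, evM_apply, ← ev_sub]
  rfl

lemma evM_congr (v : Fin n → R) {a b : Fin p → Fin q → Fin n → k}
    (h : ∀ i j e, a i j e = b i j e) : evM v a = evM v b := by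
  have : a = b := by ext i j e; exact h i j e
  rw [this]

/-- equality of products of matrices of linear forms modulo the relations -/
lemma evM_mul_evM {c : Fin m → Matrix (Fin n) (Fin n) k} {v : Fin n → R}
    (hv : ∀ r, quad (c r) v = 0)
    (a : Fin p → Fin q → Fin n → k) (b : Fin q → Fin s → Fin n → k)
    (a' : Fin p → Fin t → Fin n → k) (b' : Fin t → Fin s → Fin n → k) (x : k)
    (z : Fin p → Fin s → Fin m → k)
    (h : ∀ i j e f, x * ∑ l, a i l e * b l j f = ∑ l, a' i l e * b' l j f +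
      ∑ r, z i j r * c r e f) :
    x • (evM v a * evM v b) = evM v a' * evM v b' := by
  ext i j
  rw [Matrix.smul_apply, Matrix.mul_apply, Matrix.mul_apply]
  simp only [evM_apply, ev_mul_ev]
  rw [← quad_sum, ← quad_sum, ← quad_smul]
  have h1 : x • ∑ l, Matrix.vecMulVec (a i l) (b l j) =
      ∑ l, Matrix.vecMulVec (a' i l) (b' l j) + ∑ r, z i j r • c r := by
    ext e f
    simp only [Matrix.add_apply, Matrix.sum_apply, Matrix.vecMulVec_apply, Matrix.smul_apply,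
      smul_eq_mul]
    exact h i j e f
  have h2 : quad (∑ r, z i j r • c r) v = 0 := by
    rw [quad_sum]
    exact Finset.sum_eq_zero fun r _ => by rw [quad_smul, hv, smul_zero]
  have h3 : ∀ (A B : Matrix (Fin n) (Fin n) k), quad (A + B) v = quad A v + quad B v := by
    intro A B
    simp only [quad, Matrix.add_apply, add_smul, Finset.sum_add_distrib]
  rw [h1, h3, h2, add_zero]

end EvM

section Cert

variable {𝔸 : Type*} [CommRing 𝔸] {n m : ℕ}

/-- `S` is the table of the relations `∑ r, sig p r • c r`. -/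
def SpC (c : Fin m → Fin n → Fin n → 𝔸) (sig : Fin m → Fin m → 𝔸)
    (S : Fin m → Fin n → Fin n → 𝔸) : Prop :=
  ∀ p i j, S p i j = ∑ r, sig p r * c r i j

/-- `T` is the table of `th * mD`. -/
def ThC (c : Fin m → Fin n → Fin n → 𝔸) (D : Fin m → Fin m → 𝔸) (th : Fin n → Fin n → 𝔸)
    (T : Fin n → Fin m → Fin n → 𝔸) : Prop :=
  ∀ l s a, T l s a = ∑ i, th l i * ∑ r, D r s * c r i a

/-- certificate of a step, over a commutative ring -/
def StepC (c : Fin m → Fin n → Fin n → 𝔸) (lam lam' lam'' : Fin n → Fin n → 𝔸)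
    (sig sig' : Fin m → Fin m → 𝔸) (S S' S'' : Fin m → Fin n → Fin n → 𝔸)
    (E : Fin n → Fin n → 𝔸) (g : Fin n → 𝔸) (H : Fin m → Fin n → 𝔸) (B : Fin n → Fin m → 𝔸)
    (C : Fin m → Fin m → 𝔸) (P : Fin m → Fin m → Fin n → 𝔸) (q : Fin m → Fin m → Fin n → 𝔸)
    (z : Fin m → Fin n → Fin m → 𝔸) (α β γ δ : 𝔸) : Prop :=
  (∀ i j, α * lam i j = ∑ l, E i l * lam' l j) ∧
  (∀ i, ∑ j, lam i j * g j = 0) ∧
  (∀ p i, β * ∑ j, S' p i j * g j = ∑ l, H p l * lam'' l i) ∧
  (∀ p r, γ * sig' p r = ∑ i, (∑ j, S' p i j * g j) * B i r + ∑ s, C p s * sig s r) ∧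
  (∀ t r a, P t r a = ∑ i, S'' t a i * B i r) ∧
  (∀ t j a b, δ * ∑ r, P t r a * c r b j = ∑ p, q t p a * S p b j + ∑ r, z t j r * c r a b)

/-- certificate for second syzygies -/
def SecC (th th' : Fin n → Fin n → 𝔸) (T' : Fin n → Fin m → Fin n → 𝔸)
    (sig : Fin m → Fin m → 𝔸) (P : Fin m → Fin m → Fin n → 𝔸) (q : Fin m → Fin m → Fin n → 𝔸)
    (Y : Fin m → Fin n → 𝔸) (Z : Fin n → Fin n → 𝔸) (δ ε ζ : 𝔸) : Prop :=
  (∀ t r a, ε * (δ * P t r a - ∑ p, q t p a * sig p r) = ∑ l, Y t l * T' l r a) ∧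
  (∀ i j, ζ * th i j = ∑ l, Z i l * th' l j)

/-- certificate for third syzygies -/
def ThdC (c : Fin m → Fin n → Fin n → 𝔸) (DM : Fin n → Fin m → Fin n → 𝔸)
    (th th' : Fin n → Fin n → 𝔸) (T T' T'' : Fin n → Fin m → Fin n → 𝔸)
    (sig'' : Fin m → Fin m → 𝔸) (S'' : Fin m → Fin n → Fin n → 𝔸)
    (h : Fin m → Fin n → 𝔸)
    (G : Fin n → Fin m → 𝔸) (B : Fin m → Fin n → 𝔸) (C : Fin n → Fin n → 𝔸)
    (P : Fin n → Fin n → Fin n → 𝔸) (q : Fin n → Fin n → Fin n → 𝔸)
    (z : Fin n → Fin m → Fin m → 𝔸) (η ι κ : 𝔸) : Prop :=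
  (∀ l i a, η * ∑ r, T' l r a * h r i = ∑ t, G l t * S'' t a i) ∧
  (∀ l j, ι * th' l j = ∑ i, (∑ t, G l t * sig'' t i) * B i j + ∑ i, C l i * th i j) ∧
  (∀ l i a, P l i a = ∑ r, T'' l r a * B r i) ∧
  (∀ l r a b, κ * ∑ i, P l i a * DM i r b = ∑ i, q l i a * T i r b + ∑ s, z l r s * c s a b)

variable {k : Type u} [Field k] (φ : 𝔸 →+* k)

/-- the image of a matrix of coefficients -/
def mp {p q : ℕ} (M : Fin p → Fin q → 𝔸) : Matrix (Fin p) (Fin q) k :=
  Matrix.of fun i j => φ (M i j)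

/-- the image of the relations -/
def mc (c : Fin m → Fin n → Fin n → 𝔸) : Fin m → Matrix (Fin n) (Fin n) k :=
  fun r => mp φ (c r)

lemma mp_apply {p q : ℕ} (M : Fin p → Fin q → 𝔸) (i : Fin p) (j : Fin q) :
    mp φ M i j = φ (M i j) := rfl

lemma mc_apply (c : Fin m → Fin n → Fin n → 𝔸) (r : Fin m) (i j : Fin n) :
    mc φ c r i j = φ (c r i j) := rfl

variable {R : Type u} [Ring R] [Algebra k R] {v : Fin n → R} {c : Fin m → Fin n → Fin n → 𝔸}

lemma SpC.evM {sig : Fin m → Fin m → 𝔸} {S : Fin m → Fin n → Fin n → 𝔸} (h : SpC c sig S) :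
    km R (mp φ sig) * mR (mc φ c) v = evM v (fun p j i => φ (S p i j)) := by
  rw [mR_eq_evM, km_mul_evM]
  refine evM_congr v fun p j i => ?_
  rw [h, map_sum]
  simp only [map_mul]
  rfl

lemma ThC.evM {D : Fin m → Fin m → 𝔸} {th : Fin n → Fin n → 𝔸}
    {T : Fin n → Fin m → Fin n → 𝔸} (h : ThC c D th T) :
    km R (mp φ th) * mD (mc φ c) (mp φ D) v = evM v (fun p j i => φ (T p j i)) := by
  rw [mD_eq_evM, km_mul_evM]
  refine evM_congr v fun p j i => ?_
  rw [h]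
  simp only [map_mul, map_sum]
  rfl

lemma StepC.step {lam lam' lam'' : Fin n → Fin n → 𝔸}
    {sig sig' sig'' : Fin m → Fin m → 𝔸} {S S' S'' : Fin m → Fin n → Fin n → 𝔸}
    {E : Fin n → Fin n → 𝔸} {g : Fin n → 𝔸} {H : Fin m → Fin n → 𝔸} {B : Fin n → Fin m → 𝔸}
    {C : Fin m → Fin m → 𝔸} {P : Fin m → Fin m → Fin n → 𝔸} {q : Fin m → Fin m → Fin n → 𝔸}
    {z : Fin m → Fin n → Fin m → 𝔸} {α β γ δ : 𝔸}
    (hC : StepC c lam lam' lam'' sig sig' S S' S'' E g H B C P q z α β γ δ)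
    (hS : SpC c sig S) (hS' : SpC c sig' S') (hS'' : SpC c sig'' S'')
    (hα : φ α ≠ 0) (hβ : φ β ≠ 0) (hγ : φ γ ≠ 0) (hδ : φ δ ≠ 0)
    (hv : ∀ r, quad (mc φ c r) v = 0) :
    Step (mc φ c) v (mp φ lam) (mp φ lam') (mp φ lam'') (mp φ sig) (mp φ sig') (mp φ sig'')
      (mp φ E) (fun i => φ (g i)) (mp φ H) (mp φ B) (mp φ C)
      (evM v (fun t p a => φ (q t p a))) (φ α) (φ β) (φ γ) (φ δ) := by
  obtain ⟨c0, c1, c2, c3, cP, c4⟩ := hC
  have hsh : ∀ p i, (mp φ sig' * hmat (mc φ c) (fun i => φ (g i))) p i =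
      φ (∑ j, S' p i j * g j) := by
    intro p i
    rw [Matrix.mul_apply]
    simp only [hS' p i, hmat, Matrix.of_apply, mp_apply, mc_apply, map_sum, map_mul,
      Finset.mul_sum, Finset.sum_mul]
    rw [Finset.sum_comm]
    exact Finset.sum_congr rfl fun _ _ => Finset.sum_congr rfl fun _ _ => by ring
  refine ⟨hα, hβ, hγ, hδ, ?_, ?_, ?_, ?_, ?_⟩
  · ext i j
    have := congrArg φ (c0 i j)
    simp only [map_mul, map_sum] at this
    rw [Matrix.smul_apply, smul_eq_mul, Matrix.mul_apply]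
    exact this
  · ext i j
    have := congrArg φ (c1 i)
    simp only [map_mul, map_sum, map_zero] at this
    rw [Matrix.mul_apply, Matrix.zero_apply]
    exact this
  · ext p i
    have := congrArg φ (c2 p i)
    rw [map_mul] at this
    rw [Matrix.smul_apply, smul_eq_mul, hsh, this, Matrix.mul_apply]
    simp only [map_mul, map_sum]
    rfl
  · ext p r
    have := congrArg φ (c3 p r)
    rw [map_mul, map_add, map_sum, map_sum] at this
    simp only [map_mul] at this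
    rw [Matrix.smul_apply, smul_eq_mul, Matrix.add_apply, Matrix.mul_apply, Matrix.mul_apply]
    simp only [hsh]
    exact this
  · rw [hS''.evM φ, hS.evM φ, evM_mul_km, mR_eq_evM]
    refine evM_mul_evM hv _ _ _ _ _ (fun t j r => φ (z t j r)) fun t j a b => ?_
    have := congrArg φ (c4 t j a b)
    simp only [map_mul, map_add, map_sum, cP] at this
    exact this

lemma evM_q_mem (q : Fin m → Fin m → Fin n → 𝔸) (i j : Fin m) :
    evM v (fun t p a => φ (q t p a)) i j ∈ genSpan k v := ev_mem v _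

/-- second syzygies from certificates -/
lemma StepC.sec {lam lam' lam'' : Fin n → Fin n → 𝔸}
    {sig sig' sig'' : Fin m → Fin m → 𝔸} {S S' S'' : Fin m → Fin n → Fin n → 𝔸}
    {E : Fin n → Fin n → 𝔸} {g : Fin n → 𝔸} {H : Fin m → Fin n → 𝔸} {B : Fin n → Fin m → 𝔸}
    {C : Fin m → Fin m → 𝔸} {P : Fin m → Fin m → Fin n → 𝔸} {q : Fin m → Fin m → Fin n → 𝔸}
    {z : Fin m → Fin n → Fin m → 𝔸} {α β γ δ : 𝔸}
    (hC : StepC c lam lam' lam'' sig sig' S S' S'' E g H B C P q z α β γ δ)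
    (hS : SpC c sig S) (hS' : SpC c sig' S') (hS'' : SpC c sig'' S'')
    (hα : φ α ≠ 0) (hβ : φ β ≠ 0) (hγ : φ γ ≠ 0) (hδ : φ δ ≠ 0)
    (hv : ∀ r, quad (mc φ c r) v = 0)
    {D : Fin m → Fin m → 𝔸} {th th' : Fin n → Fin n → 𝔸} {T' : Fin n → Fin m → Fin n → 𝔸}
    (hT' : ThC c D th' T') {Y : Fin m → Fin n → 𝔸} {Z : Fin n → Fin n → 𝔸} {ε ζ : 𝔸}
    (hε : φ ε ≠ 0) (hζ : φ ζ ≠ 0) (hsec : SecC th th' T' sig P q Y Z δ ε ζ)
    (LA : LinA (mc φ c) v (mp φ lam'') (mp φ sig''))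
    (hs : Sec (mc φ c) (mp φ D) v (mp φ sig) (mp φ th)) :
    Sec (mc φ c) (mp φ D) v (mp φ sig') (mp φ th') := by
  have hst := hC.step φ hS hS' hS'' hα hβ hγ hδ hv
  obtain ⟨-, -, -, -, cP, -⟩ := hC
  obtain ⟨c5, c6⟩ := hsec
  refine hst.sec LA hs (Y0 := mp φ Y) (Z0 := mp φ Z) hε hζ ?_ ?_
  · rw [hS''.evM φ, km_mul, Matrix.mul_assoc, hT'.evM φ, evM_mul_km, evM_mul_km, km_mul_evM,
      smul_evM, evM_sub, smul_evM]
    refine evM_congr v fun t r a => ?_
    have := congrArg φ (c5 t r a)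
    simp only [map_mul, map_sub, map_sum, cP] at this
    simp only [mp_apply]
    exact this
  · ext i j
    have := congrArg φ (c6 i j)
    simp only [map_mul, map_sum] at this
    rw [Matrix.smul_apply, smul_eq_mul, Matrix.mul_apply]
    exact this

/-- third syzygies from certificates -/
lemma ThdC.thd {D : Fin m → Fin m → 𝔸} {DM : Fin n → Fin m → Fin n → 𝔸}
    {th th' th'' : Fin n → Fin n → 𝔸} {T T' T'' : Fin n → Fin m → Fin n → 𝔸}
    {sig'' : Fin m → Fin m → 𝔸} {S'' : Fin m → Fin n → Fin n → 𝔸}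
    {h : Fin m → Fin n → 𝔸}
    {G : Fin n → Fin m → 𝔸} {B : Fin m → Fin n → 𝔸} {C : Fin n → Fin n → 𝔸}
    {P : Fin n → Fin n → Fin n → 𝔸} {q : Fin n → Fin n → Fin n → 𝔸}
    {z : Fin n → Fin m → Fin m → 𝔸} {η ι κ : 𝔸}
    (hC : ThdC c DM th th' T T' T'' sig'' S'' h G B C P q z η ι κ)
    (hDM : ∀ i s a, DM i s a = ∑ r, D r s * c r i a)
    (hT : ThC c D th T) (hT' : ThC c D th' T') (hT'' : ThC c D th'' T'')
    (hS'' : SpC c sig'' S'')
    (hη : φ η ≠ 0) (hι : φ ι ≠ 0) (hκ : φ κ ≠ 0)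
    (hv : ∀ r, quad (mc φ c r) v = 0)
    (hs : Sec (mc φ c) (mp φ D) v (mp φ sig'') (mp φ th''))
    (ht : Thd (mc φ c) (mp φ D) v (mp φ th))
    (Z : Matrix (Fin 1) (Fin n) R) (hZ : Z * (km R (mp φ th') * mD (mc φ c) (mp φ D) v) = 0) :
    ∃ W : Matrix (Fin 1) (Fin n) R, Z * km R (mp φ th') =
      W * evM v (fun l i a => φ (κ * P l i a - ∑ p, q l p a * th p i)) := by
  obtain ⟨c7, c8, cP, c9⟩ := hC
  have e7 : φ η • (km R (mp φ th') * mD (mc φ c) (mp φ D) v * km R (mp φ h)) =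
      km R (mp φ G * mp φ sig'') * mR (mc φ c) v := by
    rw [hT'.evM φ, km_mul, Matrix.mul_assoc, hS''.evM φ, evM_mul_km, km_mul_evM, smul_evM]
    refine evM_congr v fun l i a => ?_
    have := congrArg φ (c7 l i a)
    simp only [map_mul, map_sum] at this
    simp only [mp_apply]
    exact this
  have e8 : φ ι • mp φ th' = mp φ G * mp φ sig'' * mp φ B + mp φ C * mp φ th := by
    ext l j
    have := congrArg φ (c8 l j)
    rw [map_mul, map_add, map_sum, map_sum] at this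
    simp only [map_mul, map_sum] at this
    rw [Matrix.smul_apply, smul_eq_mul, Matrix.add_apply, Matrix.mul_apply, Matrix.mul_apply]
    simp only [Matrix.mul_apply]
    exact this
  have e9 : φ κ • (km R (mp φ th'') * mD (mc φ c) (mp φ D) v * km R (mp φ B) *
      mD (mc φ c) (mp φ D) v) = evM v (fun l i a => φ (q l i a)) *
        (km R (mp φ th) * mD (mc φ c) (mp φ D) v) := by
    rw [hT''.evM φ, hT.evM φ, evM_mul_km, mD_eq_evM]
    refine evM_mul_evM hv _ _ _ _ _ (fun l r s => φ (z l r s)) fun l r a b => ?_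
    have := congrArg φ (c9 l r a b)
    simp only [map_mul, map_add, map_sum, cP, hDM] at this
    exact this
  obtain ⟨W, hW⟩ := thd_step hs ht hη hι hκ e7 e8 e9 Z hZ
  refine ⟨W, ?_⟩
  rw [hW, hT''.evM φ, evM_mul_km, evM_mul_km, smul_evM, evM_sub]
  congr 1
  refine evM_congr v fun l i a => ?_
  simp only [map_mul, map_sub, map_sum, cP, mp_apply]

end Cert

end Pool.Agent.GQA
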