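import Pool.Agent.GQA.Kos
import Pool.Agent.MP_a6a2ff_al.Graded

/-!
# Koszul filtrations by coefficient matrices
-/

set_option linter.unusedSimpArgs false
set_option linter.unusedVariables false
set_option linter.unusedSectionVars false

universe u

open DirectSum
open Pool.Agent.MP_a6a2ff_al (shiftGr pr pr_mem pr_of_mem pr_mul pr_vecMul mem_of_pr)

namespace Pool.Agent.GQA

section Km

variable {k : Type*} [Field k] {R : Type*} [Ring R] [Algebra k R] {n m p q s : ℕ}

/-- a matrix of scalars as a matrix over the algebra -/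
def km (R : Type*) [Ring R] [Algebra k R] (M : Matrix (Fin p) (Fin q) k) :
    Matrix (Fin p) (Fin q) R := M.map (algebraMap k R)

lemma km_mul (M : Matrix (Fin p) (Fin q) k) (N : Matrix (Fin q) (Fin s) k) :
    km R (M * N) = km R M * km R N := by
  unfold km
  rw [Matrix.map_mul]

lemma km_add (M N : Matrix (Fin p) (Fin q) k) : km R (M + N) = km R M + km R N := by
  ext i j; simp [km]

lemma km_sub (M N : Matrix (Fin p) (Fin q) k) : km R (M - N) = km R M - km R N := by
  ext i j; simp [km]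

lemma km_smul (t : k) (M : Matrix (Fin p) (Fin q) k) : km R (t • M) = t • km R M := by
  ext i j; simp [km, Algebra.smul_def]

lemma km_zero : km R (0 : Matrix (Fin p) (Fin q) k) = 0 := by
  ext i j; simp [km]

lemma km_one : km R (1 : Matrix (Fin p) (Fin p) k) = 1 := by
  unfold km
  exact Matrix.map_one _ (map_zero _) (map_one _)

lemma mul_km_apply (A : Matrix (Fin p) (Fin q) R) (M : Matrix (Fin q) (Fin s) k) (i : Fin p)
    (j : Fin s) : (A * km R M) i j = ∑ l, M l j • A i l := by
  rw [Matrix.mul_apply]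
  refine Finset.sum_congr rfl fun l _ => ?_
  change A i l * algebraMap k R (M l j) = _
  rw [← Algebra.commutes, ← Algebra.smul_def]

lemma km_mul_apply (A : Matrix (Fin q) (Fin s) R) (M : Matrix (Fin p) (Fin q) k) (i : Fin p)
    (j : Fin s) : (km R M * A) i j = ∑ l, M i l • A l j := by
  rw [Matrix.mul_apply]
  refine Finset.sum_congr rfl fun l _ => ?_
  change algebraMap k R (M i l) * A l j = _
  rw [← Algebra.smul_def]

lemma mul_km_mem {𝒢 : Submodule k R} {X : Matrix (Fin 1) (Fin p) R}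
    (hX : ∀ i, X 0 i ∈ 𝒢) (M : Matrix (Fin p) (Fin q) k) (i : Fin q) :
    (X * km R M) 0 i ∈ 𝒢 := by
  rw [mul_km_apply]
  exact sum_mem fun l _ => Submodule.smul_mem _ _ (hX l)

/-- a matrix of linear forms given by coefficients -/
def evM (v : Fin n → R) (a : Fin p → Fin q → Fin n → k) : Matrix (Fin p) (Fin q) R :=
  Matrix.of fun i j => ev v (a i j)

/-- a functional as a column -/
def gcol (g : Fin n → k) : Matrix (Fin n) (Fin 1) k := Matrix.of fun j _ => g j

/-- contraction of the relations with a functional -/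
def hmat (c : Fin m → Matrix (Fin n) (Fin n) k) (g : Fin n → k) : Matrix (Fin m) (Fin n) k :=
  Matrix.of fun r i => ∑ j, c r i j * g j

lemma mR_mul_gcol (c : Fin m → Matrix (Fin n) (Fin n) k) (v : Fin n → R) (g : Fin n → k) :
    mR c v * km R (gcol g) = km R (hmat c g) * colV v := by
  ext r i
  rw [mul_km_apply, km_mul_apply]
  simp only [gcol, hmat, Matrix.of_apply, mR_apply, ev, colV_apply, Finset.smul_sum,
    Finset.sum_smul, smul_smul]
  rw [Finset.sum_comm]
  exact Finset.sum_congr rfl fun _ _ => Finset.sum_congr rfl fun _ _ => by rw [mul_comm]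

end Km

section Lin

variable {k : Type u} [Field k] {R : Type u} [Ring R] [Algebra k R] {n m : ℕ}

/-- linear syzygies in degree `j` -/
def Lin (c : Fin m → Matrix (Fin n) (Fin n) k) (v : Fin n → R) (𝒢 : ℕ → Submodule k R)
    (lam : Matrix (Fin n) (Fin n) k) (sig : Matrix (Fin m) (Fin m) k) (j : ℕ) : Prop :=
  ∀ X : Matrix (Fin 1) (Fin n) R, (∀ i, X 0 i ∈ 𝒢 j) → X * (km R lam * colV v) = 0 →
    ∃ Y : Matrix (Fin 1) (Fin m) R, (∀ i, Y 0 i ∈ 𝒢 (j - 1)) ∧
      X * km R lam = Y * (km R sig * mR c v)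

variable {c : Fin m → Matrix (Fin n) (Fin n) k} {v : Fin n → R} {𝒢 : ℕ → Submodule k R}

lemma Lin.zero (h0 : 𝒢 0 = ⊥) (lam : Matrix (Fin n) (Fin n) k) (sig : Matrix (Fin m) (Fin m) k) :
    Lin c v 𝒢 lam sig 0 := by
  intro X hX _
  have : X = 0 := by
    ext i j
    fin_cases i
    simpa [h0] using hX j
  refine ⟨0, fun i => zero_mem _, by rw [this, Matrix.zero_mul, Matrix.zero_mul]⟩

/-- The certificate of a step, as identities of matrices. -/
structure Step (c : Fin m → Matrix (Fin n) (Fin n) k) (v : Fin n → R)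
    (lam lam' lam'' : Matrix (Fin n) (Fin n) k) (sig sig' sig'' : Matrix (Fin m) (Fin m) k)
    (E : Matrix (Fin n) (Fin n) k) (g : Fin n → k) (H : Matrix (Fin m) (Fin n) k)
    (B : Matrix (Fin n) (Fin m) k) (C : Matrix (Fin m) (Fin m) k) (Q : Matrix (Fin m) (Fin m) R)
    (α β γ δ : k) : Prop where
  hα : α ≠ 0
  hβ : β ≠ 0
  hγ : γ ≠ 0
  hδ : δ ≠ 0
  e0 : α • lam = E * lam'
  e1 : lam * gcol g = 0
  e2 : β • (sig' * hmat c g) = H * lam''
  e3 : γ • sig' = sig' * hmat c g * B + C * sig
  e4 : δ • (km R sig'' * mR c v * km R B * mR c v) = Q * (km R sig * mR c v)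

variable {lam lam' lam'' : Matrix (Fin n) (Fin n) k} {sig sig' sig'' : Matrix (Fin m) (Fin m) k}
    {E : Matrix (Fin n) (Fin n) k} {g : Fin n → k} {H : Matrix (Fin m) (Fin n) k}
    {B : Matrix (Fin n) (Fin m) k} {C : Matrix (Fin m) (Fin m) k} {Q : Matrix (Fin m) (Fin m) R}
    {α β γ δ : k}

lemma Step.key1 (S : Step c v lam lam' lam'' sig sig' sig'' E g H B C Q α β γ δ)
    (Y : Matrix (Fin 1) (Fin m) R) (hY : Y * (km R sig' * mR c v) * km R (gcol g) = 0) :
    Y * km R H * (km R lam'' * colV v) = 0 := by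
  calc Y * km R H * (km R lam'' * colV v) = Y * (km R (H * lam'') * colV v) := by
        rw [km_mul]; simp only [Matrix.mul_assoc]
    _ = β • (Y * (km R sig' * (mR c v * km R (gcol g)))) := by
        rw [← S.e2, km_smul, km_mul, mR_mul_gcol]
        simp only [Matrix.smul_mul, Matrix.mul_smul, Matrix.mul_assoc]
    _ = 0 := by
        have : Y * (km R sig' * (mR c v * km R (gcol g))) =
          Y * (km R sig' * mR c v) * km R (gcol g) := by simp only [Matrix.mul_assoc]
        rw [this, hY, smul_zero]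

/-- the decomposition of `sig'` -/
lemma Step.key2 (S : Step c v lam lam' lam'' sig sig' sig'' E g H B C Q α β γ δ)
    (Y Z : Matrix (Fin 1) (Fin m) R)
    (hZ : Y * km R H * km R lam'' = Z * (km R sig'' * mR c v)) :
    (β * γ) • (Y * km R sig') = Z * (km R sig'' * mR c v) * km R B +
      β • (Y * km R C * km R sig) := by
  have h3 : γ • km R sig' = km R sig' * km R (hmat c g) * km R B + km R C * km R sig := by
    rw [← km_smul, S.e3, km_add, km_mul, km_mul, km_mul]
  have h2 : β • (km R sig' * km R (hmat c g)) = km R H * km R lam'' := by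
    rw [← km_mul, ← km_smul, S.e2, km_mul]
  calc (β * γ) • (Y * km R sig') = β • (Y * (γ • km R sig')) := by
        rw [Matrix.mul_smul, smul_smul]
    _ = β • (Y * (km R sig' * km R (hmat c g) * km R B)) + β • (Y * (km R C * km R sig)) := by
        rw [h3, Matrix.mul_add, smul_add]
    _ = Y * (β • (km R sig' * km R (hmat c g))) * km R B + β • (Y * km R C * km R sig) := by
        simp only [Matrix.mul_smul, Matrix.smul_mul, Matrix.mul_assoc]
    _ = Y * km R H * km R lam'' * km R B + β • (Y * km R C * km R sig) := by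
        rw [h2]; simp only [Matrix.mul_assoc]
    _ = _ := by rw [hZ]

lemma Step.key3 (S : Step c v lam lam' lam'' sig sig' sig'' E g H B C Q α β γ δ)
    (Y Z : Matrix (Fin 1) (Fin m) R)
    (hZ : Y * km R H * km R lam'' = Z * (km R sig'' * mR c v)) :
    (β * γ * δ) • (Y * (km R sig' * mR c v)) =
      (Z * Q + (β * δ) • (Y * km R C)) * (km R sig * mR c v) := by
  have h := congrArg (fun M => δ • (M * mR c v)) (S.key2 Y Z hZ)
  calc (β * γ * δ) • (Y * (km R sig' * mR c v)) = δ • ((β * γ) • (Y * km R sig') * mR c v) := by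
        rw [Matrix.smul_mul, smul_smul, mul_comm δ, Matrix.mul_assoc]
    _ = δ • ((Z * (km R sig'' * mR c v) * km R B + β • (Y * km R C * km R sig)) * mR c v) := h
    _ = Z * (δ • (km R sig'' * mR c v * km R B * mR c v)) +
        (β * δ) • (Y * km R C * (km R sig * mR c v)) := by
        simp only [Matrix.add_mul, smul_add, Matrix.mul_smul, Matrix.smul_mul, smul_smul,
          Matrix.mul_assoc, mul_comm δ]
    _ = _ := by
        rw [S.e4]
        simp only [Matrix.add_mul, Matrix.smul_mul, Matrix.mul_assoc]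

theorem Step.lin (S : Step c v lam lam' lam'' sig sig' sig'' E g H B C Q α β γ δ)
    (h0 : 𝒢 0 = ⊥) (hG : ∀ z ∈ genSpan k v, ∀ j, ∀ a ∈ 𝒢 j, a * z ∈ 𝒢 (j + 1))
    (hQ : ∀ i j, Q i j ∈ genSpan k v) {j : ℕ}
    (L' : Lin c v 𝒢 lam' sig' (j + 1)) (L'' : Lin c v 𝒢 lam'' sig'' j) :
    Lin c v 𝒢 lam sig (j + 1) := by
  intro X hX hXv
  have hE : α • (X * km R lam) = X * km R E * km R lam' := by
    rw [← Matrix.mul_smul, ← km_smul, S.e0, km_mul, Matrix.mul_assoc]
  obtain ⟨Y, hY, eY⟩ := L' (X * km R E) (mul_km_mem hX E) (by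
    rw [← Matrix.mul_assoc, ← hE, Matrix.smul_mul, Matrix.mul_assoc, hXv, smul_zero])
  have hYg : Y * (km R sig' * mR c v) * km R (gcol g) = 0 := by
    rw [← eY, ← hE, Matrix.smul_mul, Matrix.mul_assoc, ← km_mul, S.e1, km_zero, Matrix.mul_zero,
      smul_zero]
  obtain ⟨Z, hZ, eZ⟩ := L'' (Y * km R H) (mul_km_mem hY H) (S.key1 Y hYg)
  have key := S.key3 Y Z eZ
  have hne : α * (β * γ * δ) ≠ 0 := mul_ne_zero S.hα (mul_ne_zero (mul_ne_zero S.hβ S.hγ) S.hδ)
  refine ⟨(α * (β * γ * δ))⁻¹ • (Z * Q + (β * δ) • (Y * km R C)), fun i => ?_, ?_⟩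
  · rw [Matrix.smul_apply]
    refine Submodule.smul_mem _ _ (add_mem ?_ (Submodule.smul_mem _ _ (mul_km_mem hY C i)))
    rw [Matrix.mul_apply]
    refine sum_mem fun l _ => ?_
    cases j with
    | zero =>
      have h1 := hZ l
      rw [Nat.zero_sub, h0, Submodule.mem_bot] at h1
      rw [h1, zero_mul]
      exact zero_mem _
    | succ j => exact hG _ (hQ l i) _ _ (hZ l)
  · rw [Matrix.smul_mul, ← key, ← eY, ← hE]
    simp only [smul_smul]
    rw [show (α * (β * γ * δ))⁻¹ * (β * γ * δ * α) = 1 by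
      rw [mul_comm (β * γ * δ) α]; exact inv_mul_cancel₀ hne, one_smul]

/-- linear syzygies in all degrees -/
def LinA (c : Fin m → Matrix (Fin n) (Fin n) k) (v : Fin n → R)
    (lam : Matrix (Fin n) (Fin n) k) (sig : Matrix (Fin m) (Fin m) k) : Prop :=
  ∀ X : Matrix (Fin 1) (Fin n) R, X * (km R lam * colV v) = 0 →
    ∃ Y : Matrix (Fin 1) (Fin m) R, X * km R lam = Y * (km R sig * mR c v)

/-- linear second syzygies -/
def Sec (c : Fin m → Matrix (Fin n) (Fin n) k) (D : Matrix (Fin m) (Fin m) k) (v : Fin n → R)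
    (sig : Matrix (Fin m) (Fin m) k) (th : Matrix (Fin n) (Fin n) k) : Prop :=
  ∀ Y : Matrix (Fin 1) (Fin m) R, Y * (km R sig * mR c v) = 0 →
    ∃ Z : Matrix (Fin 1) (Fin n) R, Y * km R sig = Z * (km R th * mD c D v)

/-- vanishing third syzygies -/
def Thd (c : Fin m → Matrix (Fin n) (Fin n) k) (D : Matrix (Fin m) (Fin m) k) (v : Fin n → R)
    (th : Matrix (Fin n) (Fin n) k) : Prop :=
  ∀ Z : Matrix (Fin 1) (Fin n) R, Z * (km R th * mD c D v) = 0 → Z * km R th = 0

theorem Step.sec (S : Step c v lam lam' lam'' sig sig' sig'' E g H B C Q α β γ δ)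
    {D : Matrix (Fin m) (Fin m) k} {th th' : Matrix (Fin n) (Fin n) k}
    (LA : LinA c v lam'' sig'') (hS : Sec c D v sig th)
    {Y0 : Matrix (Fin m) (Fin n) k} {Z0 : Matrix (Fin n) (Fin n) k} {ε ζ : k}
    (hε : ε ≠ 0) (hζ : ζ ≠ 0)
    (e5 : ε • (δ • (km R sig'' * mR c v * km R B) - Q * km R sig) =
      km R (Y0 * th') * mD c D v)
    (e6 : ζ • th = Z0 * th') : Sec c D v sig' th' := by
  intro Y hY
  obtain ⟨Z, eZ⟩ := LA (Y * km R H) (S.key1 Y (by rw [hY, Matrix.zero_mul]))
  have k2 := S.key2 Y Z eZ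
  have k3 := S.key3 Y Z eZ
  rw [hY, smul_zero] at k3
  obtain ⟨W, hW⟩ := hS _ k3.symm
  have hne : ε * ζ * (β * γ * δ) ≠ 0 := mul_ne_zero (mul_ne_zero hε hζ)
    (mul_ne_zero (mul_ne_zero S.hβ S.hγ) S.hδ)
  refine ⟨(ε * ζ * (β * γ * δ))⁻¹ • (ζ • (Z * km R Y0) + ε • (W * km R Z0)), ?_⟩
  have e6' : ζ • km R th = km R Z0 * km R th' := by rw [← km_smul, e6, km_mul]
  have h1 : (ε * ζ * (β * γ * δ)) • (Y * km R sig') =
      (ζ • (Z * km R Y0) + ε • (W * km R Z0)) * (km R th' * mD c D v) := by
    have e5' : ε • (δ • (Z * (km R sig'' * mR c v) * km R B) - Z * Q * km R sig) =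
        Z * km R Y0 * (km R th' * mD c D v) := by
      have := congrArg (fun M => Z * M) e5
      simp only [km_mul, Matrix.mul_sub, Matrix.mul_smul, Matrix.mul_assoc] at this ⊢
      exact this
    have hW' : ε • ζ • ((Z * Q + (β * δ) • (Y * km R C)) * km R sig) =
        ε • (W * km R Z0 * (km R th' * mD c D v)) := by
      have h9 : ζ • (W * (km R th * mD c D v)) = W * ((ζ • km R th) * mD c D v) := by
        simp only [Matrix.mul_smul, Matrix.smul_mul]
      rw [hW, h9, e6']
      simp only [Matrix.mul_assoc]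
    calc (ε * ζ * (β * γ * δ)) • (Y * km R sig')
        = (ε * ζ * δ) • ((β * γ) • (Y * km R sig')) := by
          rw [smul_smul]; congr 1; ring
      _ = (ε * ζ * δ) • (Z * (km R sig'' * mR c v) * km R B) +
          (ε * ζ * (β * δ)) • (Y * km R C * km R sig) := by
          rw [k2, smul_add, smul_smul]; congr 2; ring
      _ = ζ • (ε • (δ • (Z * (km R sig'' * mR c v) * km R B) - Z * Q * km R sig)) +
          ε • ζ • ((Z * Q + (β * δ) • (Y * km R C)) * km R sig) := by
          simp only [Matrix.add_mul, Matrix.smul_mul]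
          module
      _ = _ := by
          rw [e5', hW']
          simp only [Matrix.add_mul, Matrix.smul_mul]
  rw [Matrix.smul_mul, ← h1, smul_smul, inv_mul_cancel₀ hne, one_smul]

/-- The certificate for third syzygies. -/
theorem thd_step {D : Matrix (Fin m) (Fin m) k} {th th' th'' : Matrix (Fin n) (Fin n) k}
    {sig'' : Matrix (Fin m) (Fin m) k}
    (hS : Sec c D v sig'' th'') (hT : Thd c D v th)
    {h : Matrix (Fin m) (Fin n) k}
    {G : Matrix (Fin n) (Fin m) k} {B2 : Matrix (Fin m) (Fin n) k}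
    {C2 : Matrix (Fin n) (Fin n) k} {Q2 : Matrix (Fin n) (Fin n) R} {η ι κ : k}
    (hη : η ≠ 0) (hι : ι ≠ 0) (hκ : κ ≠ 0)
    (e7 : η • (km R th' * mD c D v * km R h) = km R (G * sig'') * mR c v)
    (e8 : ι • th' = G * sig'' * B2 + C2 * th)
    (e9 : κ • (km R th'' * mD c D v * km R B2 * mD c D v) = Q2 * (km R th * mD c D v))
    (Z : Matrix (Fin 1) (Fin n) R) (hZ : Z * (km R th' * mD c D v) = 0) :
    ∃ W : Matrix (Fin 1) (Fin n) R, Z * km R th' =
      W * (κ • (km R th'' * mD c D v * km R B2) - Q2 * km R th) := by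
  obtain ⟨W, hW⟩ := hS (Z * km R G) (by
    calc Z * km R G * (km R sig'' * mR c v) = Z * (km R (G * sig'') * mR c v) := by
          rw [km_mul]; simp only [Matrix.mul_assoc]
      _ = η • (Z * (km R th' * mD c D v) * km R h) := by
          rw [← e7]; simp only [Matrix.mul_smul, Matrix.mul_assoc]
      _ = 0 := by rw [hZ, Matrix.zero_mul, smul_zero])
  have e8' : ι • km R th' = km R G * km R sig'' * km R B2 + km R C2 * km R th := by
    rw [← km_smul, e8, km_add, km_mul, km_mul, km_mul]
  have h1 : ι • (Z * km R th') = W * (km R th'' * mD c D v) * km R B2 +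
      Z * km R C2 * km R th := by
    rw [← hW, ← Matrix.mul_smul, e8', Matrix.mul_add]
    simp only [Matrix.mul_assoc]
  have h2 : (W * Q2 + κ • (Z * km R C2)) * (km R th * mD c D v) = 0 := by
    have h3 := congrArg (fun M => κ • (M * mD c D v)) h1
    simp only [Matrix.smul_mul, Matrix.add_mul, smul_add, Matrix.mul_assoc] at h3
    have h4 : κ • ι • (Z * (km R th' * mD c D v)) = 0 := by rw [hZ, smul_zero, smul_zero]
    rw [h4] at h3
    have h5 := congrArg (fun M => W * M) e9
    simp only [Matrix.mul_smul, Matrix.mul_assoc] at h5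
    rw [Matrix.add_mul, Matrix.mul_assoc, ← h5, Matrix.smul_mul, Matrix.mul_assoc, ← h3]
  have h6 := hT _ h2
  refine ⟨(κ * ι)⁻¹ • W, ?_⟩
  have hne : κ * ι ≠ 0 := mul_ne_zero hκ hι
  have h7 : (κ * ι) • (Z * km R th') =
      W * (κ • (km R th'' * mD c D v * km R B2) - Q2 * km R th) := by
    rw [mul_smul, h1, smul_add]
    have h8 : κ • (Z * km R C2 * km R th) = -(W * Q2 * km R th) := by
      rw [Matrix.add_mul, Matrix.smul_mul] at h6
      exact eq_neg_of_add_eq_zero_right h6
    rw [h8, Matrix.mul_sub, Matrix.mul_smul]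
    simp only [Matrix.mul_assoc, sub_eq_add_neg]
  rw [Matrix.smul_mul, ← h7, smul_smul, inv_mul_cancel₀ hne, one_smul]

end Lin

section Graded

variable {k : Type u} [Field k] {R : Type u} [Ring R] [Algebra k R] {n m : ℕ}
  {c : Fin m → Matrix (Fin n) (Fin n) k} {v : Fin n → R}

lemma mul_mem_shift (z : R) (hz : z ∈ genSpan k v) (j : ℕ) (a : R)
    (ha : a ∈ shiftGr (powGrading k v) j) : a * z ∈ shiftGr (powGrading k v) (j + 1) := by
  cases j with
  | zero =>
    have : a = 0 := by simpa [shiftGr] using ha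
    simp [this]
  | succ j =>
    change a * z ∈ genSpan k v ^ (j + 1)
    rw [pow_succ]
    exact Submodule.mul_mem_mul ha hz

lemma mR_mem_one (i : Fin m) (j : Fin n) : mR c v i j ∈ powGrading k v 1 :=
  mem_one_of_mem (ev_mem v _)

/-- The presentation gives the linear syzygies of all generators. -/
theorem IsGPres.lin_one (h : IsGPres k R c v) (j : ℕ) :
    Lin c v (shiftGr (powGrading k v)) 1 1 j := by
  cases j with
  | zero => exact Lin.zero rfl _ _
  | succ j =>
    let := h.gradedAlgebra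
    intro X hX hXv
    rw [km_one, Matrix.one_mul] at hXv
    obtain ⟨p, hp⟩ := h.mem_rowSpan (X 0) (by
      have := congrFun (congrFun hXv 0) 0
      rw [Matrix.mul_apply] at this
      simpa [colV] using this)
    rw [Matrix.vecMulLinear_apply] at hp
    have hp' : Matrix.vecMul (fun i => pr (powGrading k v) j (p i)) (mR c v) = X 0 := by
      rw [← pr_vecMul _ _ (fun i j => mR_mem_one i j), hp]
      ext i
      exact pr_of_mem _ (hX i)
    refine ⟨Matrix.of fun _ i => pr (powGrading k v) j (p i), fun i => pr_mem _ j _, ?_⟩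
    rw [km_one, km_one, Matrix.mul_one, Matrix.one_mul]
    ext i l
    fin_cases i
    rw [Matrix.mul_apply]
    have := congrFun hp' l
    simp only [Matrix.vecMul, dotProduct] at this
    exact this.symm

theorem IsGPres.linA (h : IsGPres k R c v) {lam : Matrix (Fin n) (Fin n) k}
    {sig : Matrix (Fin m) (Fin m) k}
    (hL : ∀ j, Lin c v (shiftGr (powGrading k v)) lam sig j) : LinA c v lam sig := by
  let := h.gradedAlgebra
  intro X hXv
  let P : AddSubgroup (Fin n → R) :=
    { carrier := {z | ∃ Y : Matrix (Fin 1) (Fin m) R, z = (Y * (km R sig * mR c v)) 0}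
      zero_mem' := ⟨0, by ext i; simp⟩
      add_mem' := by
        rintro _ _ ⟨Y, rfl⟩ ⟨Y', rfl⟩
        exact ⟨Y + Y', by ext i; simp [Matrix.add_mul]⟩
      neg_mem' := by
        rintro _ ⟨Y, rfl⟩
        exact ⟨-Y, by ext i; simp⟩ }
  have hmem : (X * km R lam) 0 ∈ P := by
    refine mem_of_pr (powGrading k v) P _ fun j => ?_
    obtain ⟨Y, -, hY⟩ := hL (j + 1) (Matrix.of fun _ i => pr (powGrading k v) (j + 1) (X 0 i))
      (fun i => pr_mem _ _ _) (by
        ext i l
        fin_cases i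
        fin_cases l
        rw [← Matrix.mul_assoc, Matrix.mul_apply, Matrix.zero_apply]
        have h1 := congrFun (congrFun hXv 0) 0
        rw [← Matrix.mul_assoc, Matrix.mul_apply, Matrix.zero_apply] at h1
        have h2 := congrArg (pr (powGrading k v) (j + 2)) h1
        rw [map_zero, map_sum] at h2
        refine Eq.trans ?_ h2
        refine Finset.sum_congr rfl fun a _ => ?_
        change ((Matrix.of fun x i => (pr (powGrading k v) (j + 1)) (X 0 i)) * km R lam) 0 a * v a =
          pr (powGrading k v) (j + 1 + 1) ((X * km R lam) 0 a * v a)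
        rw [pr_mul _ (v_mem_one a), mul_km_apply, mul_km_apply, map_sum]
        simp only [map_smul, Matrix.of_apply])
    refine ⟨Y, ?_⟩
    rw [← hY]
    ext i
    rw [mul_km_apply, mul_km_apply, map_sum]
    simp only [map_smul, Matrix.of_apply]
  obtain ⟨Y, hY⟩ := hmem
  refine ⟨Y, ?_⟩
  ext i l
  fin_cases i
  exact congrFun hY l

end Graded

end Pool.Agent.GQA
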