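import Pool.Agent.GQA.Cert

/-!
# From certificates to the exactness of the Koszul complex
-/

set_option linter.unusedSimpArgs false
set_option linter.unusedVariables false
set_option linter.unusedSectionVars false

universe u

namespace Pool.Agent.GQA

section

variable {k : Type u} [Field k] {R : Type u} [Ring R] [Algebra k R] {n m : ℕ}
  {c : Fin m → Matrix (Fin n) (Fin n) k} {v : Fin n → R} {D : Matrix (Fin m) (Fin m) k}

lemma sec_zero (th : Matrix (Fin n) (Fin n) k) : Sec c D v 0 th := fun Y _ =>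
  ⟨0, by rw [km_zero, Matrix.mul_zero, Matrix.zero_mul]⟩

lemma thd_zero : Thd c D v 0 := fun Z _ => by rw [km_zero, Matrix.mul_zero]

lemma inj_of_linA {lam : Matrix (Fin n) (Fin n) k} (hL : LinA c v lam 0) (i0 j0 : Fin n)
    (hne : lam i0 j0 ≠ 0) (a : R) (ha : ∀ i, a * v i = 0) : a = 0 := by
  obtain ⟨Y, hY⟩ := hL (Matrix.of fun _ i => if i = i0 then a else 0) (by
    ext i j
    rw [← Matrix.mul_assoc, Matrix.mul_apply, Matrix.zero_apply]
    refine Finset.sum_eq_zero fun l _ => ?_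
    rw [mul_km_apply, colV_apply, Finset.sum_mul]
    refine Finset.sum_eq_zero fun t _ => ?_
    rw [Matrix.of_apply, smul_mul_assoc]
    by_cases h : t = i0
    · rw [if_pos h, ha, smul_zero]
    · rw [if_neg h, zero_mul, smul_zero])
  have h1 := congrFun (congrFun hY 0) j0
  rw [km_zero, Matrix.zero_mul, Matrix.mul_zero, Matrix.zero_apply, mul_km_apply] at h1
  simp only [Matrix.of_apply, smul_ite, smul_zero, Finset.sum_ite_eq', Finset.mem_univ,
    if_true] at h1
  exact (smul_eq_zero.mp h1).resolve_left hne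

lemma ex12_of_sec (hS : Sec c D v 1 1) (b : Fin m → R) (hb : Matrix.vecMul b (mR c v) = 0) :
    ∃ a : Fin n → R, b = Matrix.vecMul a (mD c D v) := by
  obtain ⟨Z, hZ⟩ := hS (Matrix.of fun _ i => b i) (by
    rw [km_one, Matrix.one_mul]
    ext i j
    exact congrFun hb j)
  rw [km_one, km_one, Matrix.mul_one, Matrix.one_mul] at hZ
  refine ⟨Z 0, ?_⟩
  ext j
  exact congrFun (congrFun hZ 0) j

lemma ex01_of_thd {e : Fin n → Fin n → Fin n → k} (Pe : Fin n → k)
    (he : ∀ l i a, e l i a = if a = i then Pe l else 0)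
    (hT : ∀ Z : Matrix (Fin 1) (Fin n) R,
      Z * (km R (1 : Matrix (Fin n) (Fin n) k) * mD c D v) = 0 →
      ∃ W : Matrix (Fin 1) (Fin n) R, Z * km R (1 : Matrix (Fin n) (Fin n) k) = W * evM v e)
    (a : Fin n → R) (ha : Matrix.vecMul a (mD c D v) = 0) : ∃ x : R, ∀ i, a i = x * v i := by
  obtain ⟨W, hW⟩ := hT (Matrix.of fun _ i => a i) (by
    rw [km_one, Matrix.one_mul]
    ext i j
    exact congrFun ha j)
  rw [km_one, Matrix.mul_one] at hW
  refine ⟨∑ l, Pe l • W 0 l, fun i => ?_⟩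
  have h1 := congrFun (congrFun hW 0) i
  rw [Matrix.of_apply, Matrix.mul_apply] at h1
  rw [h1, Finset.sum_mul]
  refine Finset.sum_congr rfl fun l _ => ?_
  rw [evM_apply]
  simp only [ev, he, ite_smul, zero_smul, Finset.sum_ite_eq', Finset.mem_univ, if_true]
  rw [mul_smul_comm, smul_mul_assoc]

end

section

variable {𝔸 : Type*} [CommRing 𝔸] {k : Type u} [Field k] (φ : 𝔸 →+* k)

/-- table of the unit matrix -/
def idT (𝔸 : Type*) [CommRing 𝔸] (n : ℕ) : Fin n → Fin n → 𝔸 := fun i j => if i = j then 1 else 0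

lemma mp_idT (n : ℕ) : mp φ (idT 𝔸 n) = 1 := by
  ext i j
  simp [mp_apply, idT, Matrix.one_apply, apply_ite φ]

lemma mp_zero {n : ℕ} {M : Fin n → Fin n → 𝔸} (h : ∀ i j, M i j = 0) : mp φ M = 0 := by
  ext i j
  rw [mp_apply, h, map_zero, Matrix.zero_apply]

lemma map_ne_of_mul {φ : 𝔸 →+* k} {x : 𝔸} (hx : φ x ≠ 0) {s t : 𝔸} {n : ℕ} (e : s * t = x ^ n) :
    φ s ≠ 0 := fun h => pow_ne_zero n hx (by rw [← map_pow, ← e, map_mul, h, zero_mul])

end

end Pool.Agent.GQA
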