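import Pool.Agent.GQA.Cert

/-!
# Certificates for the superpotential (trivial twist)
-/

set_option linter.unusedSimpArgs false
set_option linter.unusedVariables false
set_option linter.unusedSectionVars false

universe u

namespace Pool.Agent.GQA

variable {𝔸 : Type*} [CommRing 𝔸] {n m : ℕ}

/-- certificate for a symmetric pairing `D` with cyclically invariant superpotential -/
def KCert (c : Fin m → Fin n → Fin n → 𝔸) (D D' : Fin m → Fin m → 𝔸)
    (X : Fin m → Fin n → Fin n → 𝔸) (dd : 𝔸) : Prop :=
  (∀ i j, ∑ l, D i l * D' l j = if i = j then dd else 0) ∧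
  (∀ r s, D r s = D s r) ∧
  (∀ r e j, X r e j = ∑ s, D r s * c s e j) ∧
  (∀ a b e j, ∑ r, c r a b * X r e j = ∑ r, c r j a * X r b e)

variable {k : Type u} [Field k] (φ : 𝔸 →+* k) {c : Fin m → Fin n → Fin n → 𝔸}
  {D D' : Fin m → Fin m → 𝔸} {X : Fin m → Fin n → Fin n → 𝔸} {dd : 𝔸}

/-- The superpotential data of a certificate. -/
noncomputable def KCert.kdata (h : KCert c D D' X dd) (hd : φ dd ≠ 0) : KData (mc φ c) where
  D := mp φ D
  D' := (φ dd)⁻¹ • mp φ D'
  U := 1
  U' := 1
  hD := by
    ext i j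
    have := congrArg φ (h.1 i j)
    simp only [map_sum, map_mul] at this
    rw [Matrix.mul_smul, Matrix.smul_apply, Matrix.mul_apply]
    simp only [mp_apply]
    rw [this, Matrix.one_apply, smul_eq_mul]
    split_ifs
    · exact inv_mul_cancel₀ hd
    · rw [map_zero, mul_zero]
  hU := one_mul 1
  cyc := fun a b e j => by
    obtain ⟨-, h2, h3, h4⟩ := h
    have h5 : ∀ r e j, ∑ s, mp φ D r s * mc φ c s e j = φ (X r e j) := fun r e j => by
      rw [h3]; simp only [map_sum, map_mul]; rfl
    have h6 : ∀ a b e j, ∑ r, ∑ s, mp φ D r s * mc φ c r a b * mc φ c s e j =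
        φ (∑ r, c r a b * X r e j) := fun a b e j => by
      rw [map_sum]
      refine Finset.sum_congr rfl fun r _ => ?_
      rw [map_mul, ← h5, Finset.mul_sum]
      refine Finset.sum_congr rfl fun s _ => ?_
      rw [mc_apply]
      ring
    rw [h6, h4]
    simp only [Matrix.one_apply, ite_mul, one_mul, zero_mul, Finset.sum_ite_eq,
      Finset.mem_univ, if_true]
    rw [h6]
  sym := fun r e j => by
    have h2 := h.2.1
    simp only [Matrix.one_apply, mul_ite, ite_mul, one_mul, mul_one, mul_zero, zero_mul,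
      Finset.sum_ite_eq, Finset.mem_univ, if_true]
    refine Finset.sum_congr rfl fun s _ => ?_
    rw [mp_apply, mp_apply, h2]

lemma KCert.kdata_D (h : KCert c D D' X dd) (hd : φ dd ≠ 0) : (h.kdata φ hd).D = mp φ D := rfl

lemma KCert.kdata_op_D (h : KCert c D D' X dd) (hd : φ dd ≠ 0) :
    (h.kdata φ hd).op.D = mp φ D := by
  ext i j
  change φ (D j i) = φ (D i j)
  rw [h.2.1]

end Pool.Agent.GQA
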