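import Pool.Agent.GQA.Pres

/-!
# The matrices of the Koszul complex and the presentation lemma
-/

set_option linter.unusedSimpArgs false
set_option linter.unusedVariables false
set_option linter.unusedSectionVars false

universe u

open DirectSum

namespace Pool.Agent.GQA

section Ev

variable {k : Type*} [Field k] {R : Type*} [Ring R] [Algebra k R] {n m : ℕ}

/-- the linear form with coefficients `l` -/
def ev (v : Fin n → R) (l : Fin n → k) : R := ∑ i, l i • v i

lemma ev_zero (v : Fin n → R) : ev v (0 : Fin n → k) = 0 := by simp [ev]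

lemma ev_add (v : Fin n → R) (l l' : Fin n → k) : ev v (l + l') = ev v l + ev v l' := by
  simp [ev, add_smul, Finset.sum_add_distrib]

lemma ev_smul (v : Fin n → R) (t : k) (l : Fin n → k) : ev v (t • l) = t • ev v l := by
  simp [ev, mul_smul, Finset.smul_sum]

lemma ev_neg (v : Fin n → R) (l : Fin n → k) : ev v (-l) = -ev v l := by
  simp [ev]

lemma ev_sub (v : Fin n → R) (l l' : Fin n → k) : ev v (l - l') = ev v l - ev v l' := by
  simp [ev, sub_smul, Finset.sum_sub_distrib]

lemma ev_sum {ι : Type*} (s : Finset ι) (v : Fin n → R) (l : ι → Fin n → k) :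
    ev v (∑ i ∈ s, l i) = ∑ i ∈ s, ev v (l i) := by
  simp only [ev, Finset.sum_apply, Finset.sum_smul]
  rw [Finset.sum_comm]

lemma ev_single (v : Fin n → R) (i : Fin n) : ev v (Pi.single i (1 : k)) = v i := by
  simp [ev, Pi.single_apply]

lemma ev_mul_ev (v : Fin n → R) (l l' : Fin n → k) :
    ev v l * ev v l' = quad (Matrix.vecMulVec l l') v := by
  simp only [ev, quad, Finset.sum_mul_sum, Matrix.vecMulVec_apply, smul_mul_smul_comm]

lemma quad_sum {ι : Type*} (s : Finset ι) (f : ι → Matrix (Fin n) (Fin n) k) (v : Fin n → R) :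
    quad (∑ i ∈ s, f i) v = ∑ i ∈ s, quad (f i) v := by
  simp only [quad, Matrix.sum_apply, Finset.sum_smul]
  have h : ∀ a : Fin n, ∑ b, ∑ i ∈ s, f i a b • (v a * v b) =
      ∑ i ∈ s, ∑ b, f i a b • (v a * v b) := fun a => Finset.sum_comm
  simp only [h]
  rw [Finset.sum_comm]

lemma quad_smul (t : k) (f : Matrix (Fin n) (Fin n) k) (v : Fin n → R) :
    quad (t • f) v = t • quad f v := by
  simp only [quad, Matrix.smul_apply, smul_eq_mul, mul_smul, Finset.smul_sum]

/-- products of linear forms that vanish by the relations -/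
lemma sum_ev_mul_ev_eq_zero {ι : Type*} (s : Finset ι) {c : Fin m → Matrix (Fin n) (Fin n) k}
    {v : Fin n → R} (hv : ∀ r, quad (c r) v = 0) (f g : ι → Fin n → k) (z : Fin m → k)
    (hz : ∀ a b, ∑ i ∈ s, f i a * g i b = ∑ r, z r * c r a b) :
    ∑ i ∈ s, ev v (f i) * ev v (g i) = 0 := by
  simp only [ev_mul_ev]
  rw [← quad_sum]
  have : ∑ i ∈ s, Matrix.vecMulVec (f i) (g i) = ∑ r, z r • c r := by
    ext a b
    simp only [Matrix.sum_apply, Matrix.vecMulVec_apply, Matrix.smul_apply, smul_eq_mul]
    exact hz a b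
  rw [this, quad_sum]
  exact Finset.sum_eq_zero fun r _ => by rw [quad_smul, hv, smul_zero]

end Ev

section Matrices

variable {k : Type*} [Field k] {R : Type*} [Ring R] [Algebra k R] {n m : ℕ}

/-- relations with the last letter removed -/
def mR (c : Fin m → Matrix (Fin n) (Fin n) k) (v : Fin n → R) : Matrix (Fin m) (Fin n) R :=
  Matrix.of fun s j => ev v (fun i => c s i j)

/-- relations with the first letter removed -/
def mL (c : Fin m → Matrix (Fin n) (Fin n) k) (v : Fin n → R) : Matrix (Fin n) (Fin m) R :=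
  Matrix.of fun i s => ev v (fun j => c s i j)

/-- the second matrix of the complex -/
def mD (c : Fin m → Matrix (Fin n) (Fin n) k) (D : Matrix (Fin m) (Fin m) k) (v : Fin n → R) :
    Matrix (Fin n) (Fin m) R :=
  Matrix.of fun i s => ev v (fun j => ∑ r, D r s * c r i j)

/-- the column of the generators -/
def colV (v : Fin n → R) : Matrix (Fin n) (Fin 1) R := Matrix.of fun i _ => v i

/-- the row of the generators -/
def rowV (v : Fin n → R) : Matrix (Fin 1) (Fin n) R := Matrix.of fun _ i => v i

variable (c : Fin m → Matrix (Fin n) (Fin n) k) (D : Matrix (Fin m) (Fin m) k) (v : Fin n → R)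

lemma mR_apply (s : Fin m) (j : Fin n) : mR c v s j = ev v (fun i => c s i j) := rfl
lemma mL_apply (i : Fin n) (s : Fin m) : mL c v i s = ev v (fun j => c s i j) := rfl
lemma mD_apply (i : Fin n) (s : Fin m) :
    mD c D v i s = ev v (fun j => ∑ r, D r s * c r i j) := rfl
lemma colV_apply (i : Fin n) (j : Fin 1) : colV v i j = v i := rfl
lemma rowV_apply (i : Fin 1) (j : Fin n) : rowV v i j = v j := rfl

lemma mR_mul_colV (hv : ∀ r, quad (c r) v = 0) : mR c v * colV v = 0 := by
  ext s i
  rw [Matrix.mul_apply, Matrix.zero_apply, ← hv s]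
  simp only [mR, colV, Matrix.of_apply, quad, ev, Finset.sum_mul, smul_mul_assoc]
  rw [Finset.sum_comm]

lemma rowV_mul_mL (hv : ∀ r, quad (c r) v = 0) : rowV v * mL c v = 0 := by
  ext i s
  rw [Matrix.mul_apply, Matrix.zero_apply, ← hv s]
  simp only [mL, rowV, Matrix.of_apply, quad, ev, Finset.mul_sum, mul_smul_comm]

lemma mD_eq (i : Fin n) (s : Fin m) : mD c D v i s = ∑ r, D r s • mL c v i r := by
  simp only [mD_apply, mL_apply, ← ev_smul, ← ev_sum]
  congr 1
  ext j
  simp [Finset.sum_apply]

lemma rowV_mul_mD (hv : ∀ r, quad (c r) v = 0) : rowV v * mD c D v = 0 := by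
  ext i s
  rw [Matrix.mul_apply, Matrix.zero_apply]
  have h := rowV_mul_mL c v hv
  have h' : ∀ r, ∑ j, rowV v i j * mL c v j r = 0 := fun r => by
    rw [← Matrix.mul_apply, h, Matrix.zero_apply]
  simp only [mD_eq, Finset.mul_sum, mul_smul_comm]
  rw [Finset.sum_comm]
  refine Finset.sum_eq_zero fun r _ => ?_
  rw [← Finset.smul_sum, h', smul_zero]

end Matrices

section Presentation

variable {k : Type u} [Field k] {R : Type u} [Ring R] [Algebra k R] {n m : ℕ}
  {c : Fin m → Matrix (Fin n) (Fin n) k} {v : Fin n → R}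

lemma ev_mem (v : Fin n → R) (l : Fin n → k) : ev v l ∈ genSpan k v :=
  sum_mem fun i _ => Submodule.smul_mem _ _ (v_mem i)

/-- the left submodule spanned by the rows of the matrix of relations -/
abbrev rowSpan (c : Fin m → Matrix (Fin n) (Fin n) k) (v : Fin n → R) :
    Submodule R (Fin n → R) :=
  LinearMap.range (mR c v).vecMulLinear

/-- the operator `(b, e) ↦ (b z, [b e_j])` -/
def actOp (c : Fin m → Matrix (Fin n) (Fin n) k) (v : Fin n → R) (z : R) (j : Fin n) :
    Module.End k (R × ((Fin n → R) ⧸ rowSpan c v)) :=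
  LinearMap.prod (LinearMap.mulRight k z ∘ₗ LinearMap.fst k _ _)
    (((rowSpan c v).mkQ.restrictScalars k) ∘ₗ
      (LinearMap.single k (fun _ : Fin n => R) j) ∘ₗ LinearMap.fst k _ _)

lemma actOp_apply (z : R) (j : Fin n) (p : R × ((Fin n → R) ⧸ rowSpan c v)) :
    actOp c v z j p = (p.1 * z, (rowSpan c v).mkQ (Pi.single j p.1)) := rfl

lemma mkQ_row (b : R) (i : Fin m) :
    (rowSpan c v).mkQ (fun j => b * mR c v i j) = 0 := by
  rw [Submodule.mkQ_apply, Submodule.Quotient.mk_eq_zero]
  refine ⟨Pi.single i b, ?_⟩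
  ext j
  simp [Matrix.vecMul, dotProduct, Pi.single_apply]

lemma actOp_rels (h : ∀ r, quad (c r) v = 0) (r : Fin m) :
    quad (c r) (fun i => MulOpposite.op (actOp c v (v i) i)) = 0 := by
  apply MulOpposite.unop_injective
  refine LinearMap.ext fun p => ?_
  obtain ⟨b, e⟩ := p
  have h1 : (MulOpposite.unop (quad (c r) (fun i => MulOpposite.op (actOp c v (v i) i)))) =
      ∑ i, ∑ j, c r i j • (actOp c v (v j) j * actOp c v (v i) i) := by
    simp only [quad, Finset.unop_sum, MulOpposite.unop_smul, MulOpposite.unop_mul,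
      MulOpposite.unop_op]
  rw [h1, MulOpposite.unop_zero, LinearMap.zero_apply]
  simp only [LinearMap.sum_apply, LinearMap.smul_apply, Module.End.mul_apply, actOp_apply]
  refine Prod.ext ?_ ?_
  · simp only [Prod.fst_sum, Prod.smul_fst, Prod.fst_zero]
    have := congrArg (b * ·) (h r)
    simp only [quad, Finset.mul_sum, mul_smul_comm, mul_zero] at this
    simpa only [mul_assoc] using this
  · simp only [Prod.snd_sum, Prod.smul_snd]
    have h2 : ∀ i j, c r i j • (rowSpan c v).mkQ (Pi.single j (b * v i)) =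
        (rowSpan c v).mkQ (Pi.single j (b * (c r i j • v i))) := by
      intro i j
      have : c r i j • (rowSpan c v).mkQ (Pi.single j (b * v i)) =
        ((rowSpan c v).mkQ.restrictScalars k) (c r i j • (Pi.single j (b * v i) : Fin n → R)) := by
        rw [map_smul]; rfl
      rw [this, ← Pi.single_smul, mul_smul_comm]
      rfl
    simp only [h2, ← map_sum]
    rw [Prod.snd_zero, ← mkQ_row (c := c) (v := v) b r]
    congr 1
    ext j
    simp only [Finset.sum_apply, mR_apply, ev, Finset.mul_sum]
    refine Finset.sum_congr rfl fun i _ => ?_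
    rw [Finset.sum_eq_single j]
    · simp
    · intro j' _ hj
      simp [Pi.single_apply, hj.symm]
    · simp

/-- The kernel of `Rⁿ → R` is generated by the relations. -/
theorem IsGPres.mem_rowSpan (h : IsGPres k R c v) (a : Fin n → R)
    (ha : ∑ i, a i * v i = 0) : a ∈ rowSpan c v := by
  obtain ⟨ψ, hψ⟩ := h.univ _ _ (actOp_rels h.rel)
  have hfst : ∀ r : R, ∀ p : R × ((Fin n → R) ⧸ rowSpan c v), ((ψ r).unop p).1 = p.1 * r := by
    intro r
    refine h.induction (fun r => ∀ p : R × ((Fin n → R) ⧸ rowSpan c v),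
      ((ψ r).unop p).1 = p.1 * r) ?_ ?_ ?_ ?_ r
    · intro j p
      rw [hψ]; rfl
    · intro t p
      rw [AlgHom.commutes, MulOpposite.algebraMap_apply, MulOpposite.unop_op,
        Module.algebraMap_end_apply, Prod.smul_fst, Algebra.smul_def, Algebra.commutes]
    · intro a b iha ihb p
      rw [map_add, MulOpposite.unop_add, LinearMap.add_apply, Prod.fst_add, iha, ihb, mul_add]
    · intro a b iha ihb p
      rw [map_mul, MulOpposite.unop_mul, Module.End.mul_apply, ihb, iha, mul_assoc]
  let δ : R →ₗ[k] ((Fin n → R) ⧸ rowSpan c v) :=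
    { toFun := fun r => ((ψ r).unop (1, 0)).2
      map_add' := fun a b => by
        rw [map_add, MulOpposite.unop_add, LinearMap.add_apply, Prod.snd_add]
      map_smul' := fun c a => by
        rw [map_smul, MulOpposite.unop_smul, LinearMap.smul_apply, Prod.smul_snd]
        rfl }
  have hδ : ∀ (r : R) (j : Fin n), δ (r * v j) = (rowSpan c v).mkQ (Pi.single j r) := by
    intro r j
    change ((ψ (r * v j)).unop (1, 0)).2 = _
    rw [map_mul, MulOpposite.unop_mul, Module.End.mul_apply, hψ, MulOpposite.unop_op, actOp_apply,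
      hfst, one_mul]
  have h0 : δ (∑ i, a i * v i) = 0 := by rw [ha, map_zero]
  simp only [map_sum, hδ] at h0
  rw [← map_sum, Submodule.mkQ_apply, Submodule.Quotient.mk_eq_zero] at h0
  rwa [Finset.univ_sum_single] at h0

end Presentation

section Superpotential

variable {k : Type*} [Field k] {R : Type*} [Ring R] [Algebra k R] {n m : ℕ}

/-- The data of a twisted superpotential `w = ∑ D r s c_r ⊗ c_s`. -/
structure KData (c : Fin m → Matrix (Fin n) (Fin n) k) where
  /-- the pairing on the relations -/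
  D : Matrix (Fin m) (Fin m) k
  /-- its inverse -/
  D' : Matrix (Fin m) (Fin m) k
  /-- the twist -/
  U : Matrix (Fin n) (Fin n) k
  /-- its inverse -/
  U' : Matrix (Fin n) (Fin n) k
  hD : D * D' = 1
  hU : U * U' = 1
  cyc : ∀ a b e j, ∑ r, ∑ s, D r s * c r a b * c s e j =
    ∑ i, U j i * ∑ r, ∑ s, D r s * c r i a * c s b e
  sym : ∀ r e j, ∑ s, D r s * c s e j = ∑ i', ∑ i, U e i' * U j i * ∑ s, D s r * c s i' i

variable {c : Fin m → Matrix (Fin n) (Fin n) k} (K : KData c)

/-- the coefficients of the superpotential -/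
def KData.w (a b e j : Fin n) : k := ∑ r, ∑ s, K.D r s * c r a b * c s e j

lemma KData.cyc' (a b e j : Fin n) : K.w a b e j = ∑ i, K.U j i * K.w i a b e := K.cyc a b e j

lemma KData.hU' : K.U' * K.U = 1 := mul_eq_one_comm.mp K.hU

lemma KData.hD' : K.D' * K.D = 1 := mul_eq_one_comm.mp K.hD

lemma KData.cyc_inv (i a b e : Fin n) : K.w i a b e = ∑ j, K.U' i j * K.w a b e j := by
  have h1 : ∀ j, K.w a b e j = ∑ i, K.U j i * K.w i a b e := fun j => K.cyc' a b e j
  simp only [h1, Finset.mul_sum, ← mul_assoc]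
  rw [Finset.sum_comm]
  have h2 : ∀ i', ∑ j, K.U' i j * K.U j i' * K.w i' a b e =
      (1 : Matrix (Fin n) (Fin n) k) i i' * K.w i' a b e := by
    intro i'
    rw [← K.hU', Matrix.mul_apply, Finset.sum_mul]
  simp only [h2, Matrix.one_apply, ite_mul, one_mul, zero_mul, Finset.sum_ite_eq,
    Finset.mem_univ, if_true]

/-- The opposite data. -/
def KData.op : KData (fun r => (c r).transpose) where
  D := K.D.transpose
  D' := K.D'.transpose
  U := K.U'
  U' := K.U
  hD := by rw [← Matrix.transpose_mul, K.hD', Matrix.transpose_one]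
  hU := K.hU'
  cyc := fun a b e j => by
    have h1 := K.cyc_inv j e b a
    simp only [KData.w] at h1
    simp only [Matrix.transpose_apply]
    calc ∑ r, ∑ s, K.D s r * c r b a * c s j e = ∑ s, ∑ r, K.D s r * c s j e * c r b a := by
          rw [Finset.sum_comm]
          exact Finset.sum_congr rfl fun s _ => Finset.sum_congr rfl fun r _ => by ring
      _ = ∑ i, K.U' j i * ∑ r, ∑ s, K.D r s * c r e b * c s a i := h1
      _ = _ := by
          refine Finset.sum_congr rfl fun i _ => ?_
          congr 1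
          rw [Finset.sum_comm]
          exact Finset.sum_congr rfl fun s _ => Finset.sum_congr rfl fun r _ => by ring
  sym := fun r e j => by
    simp only [Matrix.transpose_apply]
    -- X_r = U Y_r Uᵀ, hence Y_r = U' X_r U'ᵀ
    have h1 : (Matrix.of fun e j => ∑ s, K.D r s * c s e j) =
        K.U * (Matrix.of fun i' i => ∑ s, K.D s r * c s i' i) * K.U.transpose := by
      ext e j
      rw [Matrix.of_apply, K.sym r e j, Matrix.mul_apply]
      simp only [Matrix.mul_apply, Matrix.of_apply, Matrix.transpose_apply, Finset.sum_mul]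
      rw [Finset.sum_comm]
      exact Finset.sum_congr rfl fun i' _ => Finset.sum_congr rfl fun i _ => by ring
    have h2 : (Matrix.of fun i' i => ∑ s, K.D s r * c s i' i) =
        K.U' * (Matrix.of fun e j => ∑ s, K.D r s * c s e j) * K.U'.transpose := by
      rw [h1]
      have h3 : K.U.transpose * K.U'.transpose = 1 := by
        rw [← Matrix.transpose_mul, K.hU', Matrix.transpose_one]
      calc _ = (K.U' * K.U) * (Matrix.of fun i' i => ∑ s, K.D s r * c s i' i) *
            (K.U.transpose * K.U'.transpose) := by rw [h3, K.hU', one_mul, mul_one]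
        _ = _ := by simp only [Matrix.mul_assoc]
    have h4 := congrFun (congrFun h2 j) e
    rw [Matrix.of_apply] at h4
    rw [h4, Matrix.mul_apply]
    simp only [Matrix.mul_apply, Matrix.of_apply, Matrix.transpose_apply, Finset.sum_mul]
    refine Finset.sum_congr rfl fun i' _ => Finset.sum_congr rfl fun i _ => by ring

variable (v : Fin n → R)

/-- first matrix, right form -/
def nat0 : Matrix (Fin 1) (Fin n) R := Matrix.of fun _ i => ev v (fun j => K.U j i)

/-- second matrix, right form -/
def nat1 : Matrix (Fin n) (Fin m) R :=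
  Matrix.of fun i r => ev v (fun e => ∑ j, K.U' i j * ∑ s, K.D r s * c s e j)

/-- third matrix, right form -/
def nat2 (c : Fin m → Matrix (Fin n) (Fin n) k) (v : Fin n → R) : Matrix (Fin m) (Fin n) R :=
  Matrix.of fun s i => ev v (fun j => c s i j)

lemma mD_mul_mR (hv : ∀ r, quad (c r) v = 0) : mD c K.D v * mR c v = 0 := by
  ext i j
  rw [Matrix.mul_apply, Matrix.zero_apply]
  refine sum_ev_mul_ev_eq_zero Finset.univ hv (fun s a => ∑ r, K.D r s * c r i a)
    (fun s b => c s b j) (fun r => ∑ j', K.U' i j' * ∑ s, K.D r s * c s j j') fun a b => ?_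
  have h1 := K.cyc_inv i a b j
  simp only [KData.w] at h1
  calc ∑ s, (∑ r, K.D r s * c r i a) * c s b j = ∑ r, ∑ s, K.D r s * c r i a * c s b j := by
        simp only [Finset.sum_mul]
        rw [Finset.sum_comm]
    _ = _ := h1
    _ = _ := by
        simp only [Finset.mul_sum, Finset.sum_mul]
        rw [Finset.sum_comm]
        refine Finset.sum_congr rfl fun r _ => Finset.sum_congr rfl fun j' _ =>
          Finset.sum_congr rfl fun s _ => by ring

lemma natl01 (hv : ∀ r, quad (c r) v = 0) (i : Fin 1) (r : Fin m) :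
    ∑ s, nat1 K v s r * nat0 K v i s = 0 := by
  refine sum_ev_mul_ev_eq_zero Finset.univ hv
    (fun i e => ∑ j, K.U' i j * ∑ s, K.D r s * c s e j)
    (fun i j => K.U j i) (fun s => K.D r s) fun a b => ?_
  have h1 : ∀ j, ∑ i, K.U b i * K.U' i j = (1 : Matrix (Fin n) (Fin n) k) b j := fun j => by
    rw [← K.hU, Matrix.mul_apply]
  calc ∑ i, (∑ j, K.U' i j * ∑ s, K.D r s * c s a j) * K.U b i
      = ∑ j, (∑ i, K.U b i * K.U' i j) * ∑ s, K.D r s * c s a j := by
        simp only [Finset.sum_mul]
        rw [Finset.sum_comm]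
        exact Finset.sum_congr rfl fun j _ => Finset.sum_congr rfl fun i _ => by ring
    _ = _ := by
        simp only [h1, Matrix.one_apply, ite_mul, one_mul, zero_mul, Finset.sum_ite_eq,
          Finset.mem_univ, if_true]

lemma natl12 (hv : ∀ r, quad (c r) v = 0) (i : Fin n) (j : Fin n) :
    ∑ s, nat2 c v s j * nat1 K v i s = 0 := by
  have h := mD_mul_mR K v hv
  -- entries of `mD * mR` for all pairs
  refine sum_ev_mul_ev_eq_zero Finset.univ hv (fun s b => c s j b)
    (fun s e => ∑ j', K.U' i j' * ∑ t, K.D s t * c t e j')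
    (fun r => ∑ j', K.U' i j' * ∑ j'', K.U' j j'' * ∑ s, K.D r s * c s j' j'') fun a b => ?_
  have h1 := fun j' => K.cyc_inv j a b j'
  simp only [KData.w] at h1
  calc ∑ s, c s j a * ∑ j', K.U' i j' * ∑ t, K.D s t * c t b j'
      = ∑ j', K.U' i j' * ∑ s, ∑ t, K.D s t * c s j a * c t b j' := by
        simp only [Finset.mul_sum]
        rw [Finset.sum_comm]
        refine Finset.sum_congr rfl fun j' _ => Finset.sum_congr rfl fun s _ =>
          Finset.sum_congr rfl fun t _ => by ring
    _ = ∑ j', K.U' i j' * ∑ j'', K.U' j j'' * ∑ r, ∑ s, K.D r s * c r a b * c s j' j'' := by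
        simp only [h1]
    _ = _ := by
        simp only [Finset.mul_sum, Finset.sum_mul]
        symm
        rw [Finset.sum_comm]
        refine Finset.sum_congr rfl fun j' _ => ?_
        rw [Finset.sum_comm]
        refine Finset.sum_congr rfl fun j'' _ => Finset.sum_congr rfl fun r _ =>
          Finset.sum_congr rfl fun s _ => by ring

lemma natl23 (hv : ∀ r, quad (c r) v = 0) (i : Fin m) (j : Fin 1) :
    ∑ s, colV v s j * nat2 c v i s = 0 := by
  have h := hv i
  simp only [quad] at h
  simp only [colV_apply, nat2, Matrix.of_apply, ev, Finset.mul_sum, mul_smul_comm]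
  exact h

/-- Exactness of the complex `R → Rⁿ → Rᵐ → Rⁿ → R` at the first three places. -/
structure IsKoszul {c : Fin m → Matrix (Fin n) (Fin n) k} (K : KData c) (v : Fin n → R) :
    Prop where
  inj : ∀ a : R, (∀ i, a * v i = 0) → a = 0
  ex01 : ∀ a : Fin n → R, Matrix.vecMul a (mD c K.D v) = 0 → ∃ e : R, ∀ i, a i = e * v i
  ex12 : ∀ b : Fin m → R, Matrix.vecMul b (mR c v) = 0 →
    ∃ a : Fin n → R, b = Matrix.vecMul a (mD c K.D v)

end Superpotential

end Pool.Agent.GQA
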