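import Mathlib

/-!
# Quadratic algebras given by coefficient matrices: presentation and grading
-/

set_option linter.unusedSimpArgs false
set_option linter.unusedVariables false

universe u

open DirectSum

namespace Pool.Agent.GQA

section Quad

variable {k : Type*} [Field k] {R : Type*} [Ring R] [Algebra k R] {n m : ℕ}

/-- the value at `v` of the quadratic noncommutative polynomial with coefficients `c` -/
def quad (c : Matrix (Fin n) (Fin n) k) (v : Fin n → R) : R := ∑ i, ∑ j, c i j • (v i * v j)

lemma map_quad {S : Type*} [Ring S] [Algebra k S] (φ : R →ₐ[k] S)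
    (c : Matrix (Fin n) (Fin n) k) (v : Fin n → R) : φ (quad c v) = quad c (fun i => φ (v i)) := by
  simp [quad, map_sum]

lemma quad_op (c : Matrix (Fin n) (Fin n) k) (v : Fin n → R) :
    quad c (fun i => MulOpposite.op (v i)) = MulOpposite.op (quad c.transpose v) := by
  simp only [quad, Matrix.transpose_apply, Finset.op_sum, MulOpposite.op_smul,
    MulOpposite.op_mul]
  rw [Finset.sum_comm]

end Quad

/-- `R` is presented by the generators `v i` and the relations `quad (c r) v = 0`. -/
structure IsGPres (k : Type u) [Field k] (R : Type u) [Ring R] [Algebra k R] {n m : ℕ}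
    (c : Fin m → Matrix (Fin n) (Fin n) k) (v : Fin n → R) : Prop where
  rel : ∀ r, quad (c r) v = 0
  gen : Algebra.adjoin k (Set.range v) = ⊤
  univ : ∀ (S : Type u) [Ring S] [Algebra k S] (w : Fin n → S), (∀ r, quad (c r) w = 0) →
    ∃ φ : R →ₐ[k] S, ∀ i, φ (v i) = w i

section Existence

variable (k : Type u) [Field k] {n m : ℕ} (c : Fin m → Matrix (Fin n) (Fin n) k)

/-- the relations on the free algebra -/
inductive FreeRel : FreeAlgebra k (Fin n) → FreeAlgebra k (Fin n) → Prop
  | mk (r : Fin m) : FreeRel (quad (c r) (FreeAlgebra.ι k)) 0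

theorem exists_isGPres : ∃ (R : Type u) (_ : Ring R) (_ : Algebra k R) (v : Fin n → R),
    IsGPres k R c v := by
  let π := RingQuot.mkAlgHom k (FreeRel k c)
  refine ⟨RingQuot (FreeRel k c), inferInstance, inferInstance,
    fun i => π (FreeAlgebra.ι k i), ?_, ?_, ?_⟩
  · intro r
    rw [← map_quad]
    have := RingQuot.mkAlgHom_rel k (FreeRel.mk (k := k) (c := c) r)
    rw [map_zero] at this
    exact this
  · have hs : Function.Surjective π := RingQuot.mkAlgHom_surjective k _
    have h1 : Algebra.adjoin k (Set.range (FreeAlgebra.ι k : Fin n → _)) = ⊤ :=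
      FreeAlgebra.adjoin_range_ι k (Fin n)
    have h2 := congrArg (Subalgebra.map π) h1
    rw [Algebra.map_top, (AlgHom.range_eq_top π).mpr hs, AlgHom.map_adjoin] at h2
    rw [← h2]
    congr 1
    ext a
    simp only [Set.mem_image, Set.mem_range]
    constructor
    · rintro ⟨i, rfl⟩
      exact ⟨_, ⟨i, rfl⟩, rfl⟩
    · rintro ⟨_, ⟨i, rfl⟩, rfl⟩
      exact ⟨i, rfl⟩
  · intro S _ _ w hw
    let f : FreeAlgebra k (Fin n) →ₐ[k] S := FreeAlgebra.lift k w
    have hf : ∀ ⦃a b⦄, FreeRel k c a b → f a = f b := by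
      intro a b hab
      cases hab with
      | mk r =>
        rw [map_zero, map_quad]
        simpa [f] using hw r
    refine ⟨RingQuot.liftAlgHom k ⟨f, hf⟩, fun i => ?_⟩
    rw [RingQuot.liftAlgHom_mkAlgHom_apply]
    simp [f]

end Existence

variable {k : Type u} [Field k] {R : Type u} [Ring R] [Algebra k R] {n m : ℕ}
  {c : Fin m → Matrix (Fin n) (Fin n) k} {v : Fin n → R}

theorem IsGPres.op (h : IsGPres k R c v) :
    IsGPres k Rᵐᵒᵖ (fun r => (c r).transpose) (fun i => MulOpposite.op (v i)) := by
  refine ⟨fun r => ?_, ?_, ?_⟩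
  · rw [quad_op, Matrix.transpose_transpose, h.rel, MulOpposite.op_zero]
  · have h1 := congrArg Subalgebra.op h.gen
    rw [Subalgebra.op_adjoin, Subalgebra.op_top] at h1
    rw [← h1]
    congr 1
    ext a
    simp only [Set.mem_range, Set.mem_preimage]
    constructor
    · rintro ⟨i, rfl⟩
      exact ⟨i, rfl⟩
    · rintro ⟨i, hi⟩
      exact ⟨i, by rw [hi, MulOpposite.op_unop]⟩
  · intro S _ _ w hw
    obtain ⟨φ, hφ⟩ := h.univ Sᵐᵒᵖ (fun i => MulOpposite.op (w i)) (fun r => by
      rw [quad_op, hw, MulOpposite.op_zero])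
    refine ⟨AlgHom.opComm φ, fun i => ?_⟩
    simp [hφ]

/-- induction over the algebra -/
lemma IsGPres.induction (h : IsGPres k R c v) (p : R → Prop)
    (hg : ∀ j, p (v j)) (hc : ∀ c : k, p (algebraMap k R c))
    (ha : ∀ a b, p a → p b → p (a + b)) (hm : ∀ a b, p a → p b → p (a * b)) (r : R) : p r := by
  have hr : r ∈ Algebra.adjoin k (Set.range v) := by rw [h.gen]; trivial
  induction hr using Algebra.adjoin_induction with
  | mem z hz =>
    obtain ⟨i, rfl⟩ := hz
    exact hg i
  | algebraMap c => exact hc c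
  | add a b _ _ iha ihb => exact ha a b iha ihb
  | mul a b _ _ iha ihb => exact hm a b iha ihb

/-! ### The grading -/

/-- the space of linear forms -/
def genSpan (k : Type u) [Field k] {R : Type u} [Ring R] [Algebra k R] {n : ℕ} (v : Fin n → R) :
    Submodule k R := Submodule.span k (Set.range v)

/-- the grading by powers of the space of linear forms -/
def powGrading (k : Type u) [Field k] {R : Type u} [Ring R] [Algebra k R] {n : ℕ}
    (v : Fin n → R) : ℕ → Submodule k R := fun j => genSpan k v ^ j

instance : SetLike.GradedMonoid (powGrading k v) :=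
  Submodule.nat_power_gradedMonoid (genSpan k v)

lemma mem_one_of_mem {z : R} (hz : z ∈ genSpan k v) : z ∈ powGrading k v 1 := by
  simpa [powGrading] using hz

lemma v_mem (i : Fin n) : v i ∈ genSpan k v := Submodule.subset_span ⟨i, rfl⟩

lemma v_mem_one (i : Fin n) : v i ∈ powGrading k v 1 := mem_one_of_mem (v_mem i)

/-- the inclusion of linear forms into the direct sum -/
def degOne (k : Type u) [Field k] {R : Type u} [Ring R] [Algebra k R] {n : ℕ} (v : Fin n → R) :
    genSpan k v →ₗ[k] ⨁ i, powGrading k v i :=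
  DirectSum.lof k ℕ (fun i => powGrading k v i) 1 ∘ₗ
    (Submodule.inclusion (le_of_eq (pow_one (genSpan k v)).symm))

lemma coe_degOne (z : genSpan k v) :
    DirectSum.coeAlgHom (powGrading k v) (degOne k v z) = z := by
  unfold degOne
  rw [LinearMap.comp_apply, DirectSum.lof_eq_of, DirectSum.coeAlgHom_of]
  rfl

lemma degOne_mul_mem (z w : genSpan k v) :
    degOne k v z * degOne k v w ∈
      LinearMap.range (DirectSum.lof k ℕ (fun i => powGrading k v i) 2) := by
  unfold degOne
  simp only [LinearMap.comp_apply, DirectSum.lof_eq_of, DirectSum.of_mul_of]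
  exact ⟨_, rfl⟩

lemma eq_of_mem_lof {j : ℕ} {s t : ⨁ i, powGrading k v i}
    (hs : s ∈ LinearMap.range (DirectSum.lof k ℕ (fun i => powGrading k v i) j))
    (ht : t ∈ LinearMap.range (DirectSum.lof k ℕ (fun i => powGrading k v i) j))
    (h0 : DirectSum.coeAlgHom (powGrading k v) s =
      DirectSum.coeAlgHom (powGrading k v) t) : s = t := by
  obtain ⟨s, rfl⟩ := hs
  obtain ⟨t, rfl⟩ := ht
  rw [DirectSum.lof_eq_of, DirectSum.lof_eq_of, DirectSum.coeAlgHom_of,
    DirectSum.coeAlgHom_of] at h0
  rw [Subtype.ext (a1 := s) (a2 := t) h0]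

lemma quad_degOne (h : IsGPres k R c v) (r : Fin m) :
    quad (c r) (fun i => degOne k v ⟨v i, v_mem i⟩) = 0 := by
  refine eq_of_mem_lof (j := 2) ?_ (zero_mem _) ?_
  · unfold quad
    exact sum_mem fun i _ => sum_mem fun j _ => Submodule.smul_mem _ _ (degOne_mul_mem _ _)
  · rw [map_zero, ← h.rel r]
    unfold quad
    simp only [map_sum, map_smul, map_mul, coe_degOne]

/-- the algebra map to the direct sum of homogeneous components -/
lemma IsGPres.exists_decompose (h : IsGPres k R c v) :
    ∃ φ : R →ₐ[k] ⨁ i, powGrading k v i, ∀ z : genSpan k v, φ z = degOne k v z := by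
  obtain ⟨φ, hφ⟩ := h.univ _ _ (quad_degOne h)
  refine ⟨φ, ?_⟩
  rintro ⟨z, hz⟩
  unfold genSpan at hz
  induction hz using Submodule.span_induction with
  | mem z hz =>
    obtain ⟨i, rfl⟩ := hz
    exact hφ i
  | zero =>
    have : (⟨0, zero_mem _⟩ : genSpan k v) = 0 := rfl
    simp [this]
  | add a b ha hb iha ihb =>
    have : (⟨a + b, add_mem ha hb⟩ : genSpan k v) = ⟨a, ha⟩ + ⟨b, hb⟩ := rfl
    rw [this, map_add, ← iha, ← ihb, ← map_add]
    rfl
  | smul c a ha iha =>
    have : (⟨c • a, Submodule.smul_mem _ c ha⟩ : genSpan k v) = c • ⟨a, ha⟩ := rfl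
    rw [this, map_smul, ← iha, ← map_smul]
    rfl

/-- The grading. -/
noncomputable abbrev IsGPres.gradedAlgebra (h : IsGPres k R c v) :
    GradedAlgebra (powGrading k v) :=
  GradedAlgebra.ofAlgHom _ h.exists_decompose.choose
    (by
      apply AlgHom.ext_of_adjoin_eq_top h.gen
      intro a ha
      have hmem : a ∈ genSpan k v := Submodule.subset_span ha
      rw [AlgHom.comp_apply, AlgHom.id_apply]
      exact (congrArg _ (h.exists_decompose.choose_spec ⟨a, hmem⟩)).trans (coe_degOne _))
    (fun i z => by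
      obtain ⟨z, hz⟩ := z
      change z ∈ genSpan k v ^ i at hz
      induction hz using Submodule.pow_induction_on_left' with
      | algebraMap r =>
        dsimp only
        rw [AlgHom.commutes, DirectSum.algebraMap_apply]; rfl
      | add x y i hx hy ihx ihy =>
        dsimp only at ihx ihy ⊢
        rw [map_add, ihx, ihy, ← map_add]
        rfl
      | mem_mul m hm i x hx ih =>
        dsimp only at ih ⊢
        rw [map_mul, ih, h.exists_decompose.choose_spec ⟨m, hm⟩]
        unfold degOne
        rw [LinearMap.comp_apply, DirectSum.lof_eq_of, DirectSum.of_mul_of]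
        exact DirectSum.of_eq_of_gradedMonoid_eq (Sigma.subtype_ext (add_comm _ _) rfl))

end Pool.Agent.GQA
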