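import Pool.Agent.MP_a6a2ff_al.Defs
import Pool.Agent.GQA.Pres

/-!
# Point modules of a quadratic algebra with a finite set of point pairs
-/

set_option linter.unusedSimpArgs false
set_option linter.unusedVariables false
set_option linter.unusedSectionVars false

universe u

open Pool.Agent.MP_a6a2ff_al (PointModule PointModuleClass)

namespace Pool.Agent.GQA

/-- The zero locus of the relations is the graph of a map on a set of points. -/
structure IsGraph {k : Type*} [Field k] {n m : ℕ} (c : Fin m → Matrix (Fin n) (Fin n) k)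
    {I : Type*} (pt : I → Fin n → k) (sig : I → I) : Prop where
  ne_zero : ∀ i, pt i ≠ 0
  inj : ∀ (i i' : I) (t : k), pt i = t • pt i' → i = i'
  mem : ∀ (i : I) (r : Fin m), ∑ a, ∑ b, c r a b * (pt i a * pt (sig i) b) = 0
  classify : ∀ l l' : Fin n → k, l ≠ 0 → l' ≠ 0 →
    (∀ r, ∑ a, ∑ b, c r a b * (l a * l' b) = 0) →
    ∃ (i : I) (s t : k), s ≠ 0 ∧ t ≠ 0 ∧ l = s • pt i ∧ l' = t • pt (sig i)

variable {k : Type u} [Field k] {R : Type u} [Ring R] [Algebra k R] {n m : ℕ}
  {c : Fin m → Matrix (Fin n) (Fin n) k} {v : Fin n → R}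

/-- the shift operators -/
noncomputable def shiftOp (l : ℕ → Fin n → k) (j : Fin n) : Module.End k (ℕ →₀ k) :=
  Finsupp.linearCombination k (fun p => Finsupp.single (p + 1) (l p j))

lemma shiftOp_single (l : ℕ → Fin n → k) (j : Fin n) (p : ℕ) (t : k) :
    shiftOp l j (Finsupp.single p t) = Finsupp.single (p + 1) (t * l p j) := by
  simp [shiftOp]

lemma shiftOp_rels (l : ℕ → Fin n → k)
    (hl : ∀ p r, ∑ a, ∑ b, c r a b * (l p a * l (p + 1) b) = 0) (r : Fin m) :
    quad (c r) (fun j => MulOpposite.op (shiftOp l j)) = 0 := by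
  apply MulOpposite.unop_injective
  refine Finsupp.lhom_ext fun p t => ?_
  have h1 : MulOpposite.unop (quad (c r) (fun j => MulOpposite.op (shiftOp l j))) =
      ∑ a, ∑ b, c r a b • (shiftOp l b * shiftOp l a) := by
    simp only [quad, Finset.unop_sum, MulOpposite.unop_smul, MulOpposite.unop_mul,
      MulOpposite.unop_op]
  rw [h1, MulOpposite.unop_zero, LinearMap.zero_apply]
  simp only [LinearMap.sum_apply, LinearMap.smul_apply, Module.End.mul_apply, shiftOp_single,
    Finsupp.smul_single, smul_eq_mul]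
  simp only [← Finsupp.single_finsetSum]
  rw [Finsupp.single_eq_zero]
  have h2 : ∑ a, ∑ b, c r a b * (t * l p a * l (p + 1) b) =
      t * ∑ a, ∑ b, c r a b * (l p a * l (p + 1) b) := by
    simp only [Finset.mul_sum]
    exact Finset.sum_congr rfl fun a _ => Finset.sum_congr rfl fun b _ => by ring
  rw [h2, hl, mul_zero]

lemma IsGPres.exists_act (h : IsGPres k R c v) (l : ℕ → Fin n → k)
    (hl : ∀ p r, ∑ a, ∑ b, c r a b * (l p a * l (p + 1) b) = 0) :
    ∃ ψ : Rᵐᵒᵖ →ₐ[k] Module.End k (ℕ →₀ k), ∀ j, ψ (MulOpposite.op (v j)) = shiftOp l j := by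
  obtain ⟨φ, hφ⟩ := h.univ _ _ (shiftOp_rels l hl)
  exact ⟨AlgHom.opComm φ, fun j => by simp [hφ]⟩

/-- a linear form acts by a combination of the shift operators -/
lemma act_mem (ψ : Rᵐᵒᵖ →ₐ[k] Module.End k (ℕ →₀ k)) (l : ℕ → Fin n → k)
    (hψ : ∀ j, ψ (MulOpposite.op (v j)) = shiftOp l j) (w : R)
    (hw : w ∈ genSpan k v) (p : ℕ) (z : ℕ →₀ k)
    (hz : z ∈ LinearMap.range (Finsupp.lsingle p : k →ₗ[k] ℕ →₀ k)) :
    ψ (MulOpposite.op w) z ∈ LinearMap.range (Finsupp.lsingle (p + 1) : k →ₗ[k] ℕ →₀ k) := by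
  obtain ⟨t, rfl⟩ := hz
  rw [Finsupp.lsingle_apply]
  unfold genSpan at hw
  induction hw using Submodule.span_induction with
  | mem w hw =>
    obtain ⟨j, rfl⟩ := hw
    rw [hψ, shiftOp_single]
    exact ⟨_, rfl⟩
  | zero => simp
  | add a b _ _ iha ihb =>
    rw [MulOpposite.op_add, map_add, LinearMap.add_apply]
    exact add_mem iha ihb
  | smul c a _ iha =>
    rw [MulOpposite.op_smul, map_smul, LinearMap.smul_apply]
    exact Submodule.smul_mem _ _ iha

/-- the point module of a sequence of points -/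
noncomputable def mkPoint (ψ : Rᵐᵒᵖ →ₐ[k] Module.End k (ℕ →₀ k)) (l : ℕ → Fin n → k)
    (hψ : ∀ j, ψ (MulOpposite.op (v j)) = shiftOp l j) (hl : ∀ p, l p ≠ 0) :
    PointModule (powGrading k v) :=
  letI inst : Module Rᵐᵒᵖ (ℕ →₀ k) := Module.compHom (ℕ →₀ k) ψ.toRingHom
  have hact : ∀ (r : Rᵐᵒᵖ) (z : ℕ →₀ k), r • z = ψ r z := fun r z => rfl
  { M := ℕ →₀ k
    rmodule := inst
    tower := ⟨fun t r z => by
      rw [hact, hact, map_smul, LinearMap.smul_apply]⟩
    comp := fun p => LinearMap.range (Finsupp.lsingle p : k →ₗ[k] ℕ →₀ k)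
    isInternal := by
      apply DirectSum.isInternal_submodule_of_iSupIndep_of_iSup_eq_top
      · exact iSupIndep_range_lsingle _ _ _
      · exact Finsupp.iSup_lsingle_range
    smul_mem := by
      intro i j a z ha hz
      rw [hact]
      change a ∈ genSpan k v ^ i at ha
      induction ha using Submodule.pow_induction_on_right' generalizing z with
      | algebraMap t =>
        have : MulOpposite.op (algebraMap k R t) = algebraMap k Rᵐᵒᵖ t := rfl
        rw [this, AlgHom.commutes, Module.algebraMap_end_apply]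
        exact Submodule.smul_mem _ _ hz
      | add a b i _ _ iha ihb =>
        rw [MulOpposite.op_add, map_add, LinearMap.add_apply]
        exact add_mem (iha z hz) (ihb z hz)
      | mul_mem i a _ iha w hw =>
        rw [MulOpposite.op_mul, map_mul, Module.End.mul_apply]
        exact act_mem ψ l hψ w hw (j + i) _ (iha z hz)
    generated := by
      rw [eq_top_iff]
      have key : ∀ p, Finsupp.single p (1 : k) ∈ Submodule.span Rᵐᵒᵖ
          ((LinearMap.range (Finsupp.lsingle 0 : k →ₗ[k] ℕ →₀ k) : Submodule k (ℕ →₀ k)) :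
            Set (ℕ →₀ k)) := by
        intro p
        induction p with
        | zero => exact Submodule.subset_span ⟨1, rfl⟩
        | succ p ih =>
          obtain ⟨j, hj⟩ : ∃ j, l p j ≠ 0 := by
            by_contra hcon
            push Not at hcon
            exact hl p (funext hcon)
          have h1 : Finsupp.single (p + 1) (1 : k) =
              ((l p j)⁻¹ • MulOpposite.op (v j) : Rᵐᵒᵖ) •
                (Finsupp.single p (1 : k) : ℕ →₀ k) := by
            rw [hact, map_smul, LinearMap.smul_apply, hψ, shiftOp_single, Finsupp.smul_single]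
            congr 1
            rw [smul_eq_mul, one_mul, inv_mul_cancel₀ hj]
          rw [h1]
          exact Submodule.smul_mem _ _ ih
      intro z _
      induction z using Finsupp.induction_linear with
      | zero => exact zero_mem _
      | add a b ha hb => exact add_mem (ha trivial) (hb trivial)
      | single p t =>
        have h1 : (Finsupp.single p t : ℕ →₀ k) =
            (algebraMap k Rᵐᵒᵖ t) • (Finsupp.single p (1 : k) : ℕ →₀ k) := by
          rw [hact, AlgHom.commutes, Module.algebraMap_end_apply, Finsupp.smul_single,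
            smul_eq_mul, mul_one]
        rw [h1]
        exact Submodule.smul_mem _ _ (key p)
    finrank_comp := by
      intro p
      rw [LinearMap.finrank_range_of_inj, Module.finrank_self]
      exact Finsupp.single_injective p }

section Structure

variable (P : PointModule (powGrading k v))

instance : SMulCommClass k Rᵐᵒᵖ P.M := ⟨fun c r m => by
  rw [← algebraMap_smul Rᵐᵒᵖ c m, ← algebraMap_smul Rᵐᵒᵖ c (r • m), smul_smul, smul_smul,
    Algebra.commutes]⟩

lemma comp_eq_span {p : ℕ} {z : P.M} (hz : z ∈ P.comp p) (h0 : z ≠ 0) :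
    P.comp p = Submodule.span k {z} := by
  have hne : (⟨z, hz⟩ : P.comp p) ≠ 0 := fun h => h0 (congrArg Subtype.val h)
  have H := (finrank_eq_one_iff_of_nonzero' (⟨z, hz⟩ : P.comp p) hne).mp (P.finrank_comp p)
  apply le_antisymm
  · intro w hw
    obtain ⟨t, ht⟩ := H ⟨w, hw⟩
    rw [Submodule.mem_span_singleton]
    exact ⟨t, congrArg Subtype.val ht⟩
  · rw [Submodule.span_singleton_le_iff_mem]
    exact hz

lemma exists_ne (p : ℕ) : ∃ z ∈ P.comp p, z ≠ 0 := by
  have h1 : P.comp p ≠ ⊥ := by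
    intro h
    have := P.finrank_comp p
    rw [h, finrank_bot] at this
    exact zero_ne_one this
  exact Submodule.exists_mem_ne_zero_of_ne_bot h1

lemma smul_mem_one {p : ℕ} {z : P.M} (hz : z ∈ P.comp p) (w : R)
    (hw : w ∈ genSpan k v) : MulOpposite.op w • z ∈ P.comp (p + 1) :=
  P.smul_mem 1 p w z (mem_one_of_mem hw) hz

lemma exists_smul_ne (h : IsGPres k R c v) {p : ℕ} {z : P.M}
    (hz : z ∈ P.comp p) (h0 : z ≠ 0) : ∃ j, MulOpposite.op (v j) • z ≠ 0 := by
  by_contra hcon
  push Not at hcon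
  -- the span of the components up to degree p is a submodule
  let N : Submodule k P.M := ⨆ i : {i : ℕ // i ≤ p}, P.comp i
  have hgen : ∀ j, ∀ w ∈ N, MulOpposite.op (v j) • w ∈ N := by
    intro j w hw
    induction hw using Submodule.iSup_induction' with
    | mem i w hw =>
      rcases Nat.lt_or_ge i.1 p with hi | hi
      · exact (le_iSup (fun i : {i : ℕ // i ≤ p} => P.comp i) ⟨i.1 + 1, hi⟩)
          (smul_mem_one P hw _ (v_mem j))
      · have hin : i.1 = p := le_antisymm i.2 hi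
        rw [hin, comp_eq_span P hz h0, Submodule.mem_span_singleton] at hw
        obtain ⟨t, rfl⟩ := hw
        rw [smul_comm, hcon j, smul_zero]
        exact zero_mem _
    | zero => rw [smul_zero]; exact zero_mem _
    | add a b _ _ iha ihb => rw [smul_add]; exact add_mem iha ihb
  have hall : ∀ r : R, ∀ w ∈ N, MulOpposite.op r • w ∈ N := by
    intro r
    refine h.induction (fun r => ∀ w ∈ N, MulOpposite.op r • w ∈ N) hgen ?_ ?_ ?_ r
    · intro t w hw
      have : MulOpposite.op (algebraMap k R t) = algebraMap k Rᵐᵒᵖ t := rfl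
      rw [this, algebraMap_smul]
      exact Submodule.smul_mem _ _ hw
    · intro a b ha hb w hw
      rw [MulOpposite.op_add, add_smul]
      exact add_mem (ha w hw) (hb w hw)
    · intro a b ha hb w hw
      rw [MulOpposite.op_mul, mul_smul]
      exact hb _ (ha w hw)
  have htop : ∀ w : P.M, w ∈ N := by
    intro w
    have hw : w ∈ Submodule.span Rᵐᵒᵖ (P.comp 0 : Set P.M) := by
      rw [P.generated]; trivial
    induction hw using Submodule.span_induction with
    | mem w hw => exact (le_iSup (fun i : {i : ℕ // i ≤ p} => P.comp i) ⟨0, Nat.zero_le p⟩) hw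
    | zero => exact zero_mem _
    | add a b _ _ iha ihb => exact add_mem iha ihb
    | smul r a _ iha => exact hall r.unop a iha
  obtain ⟨m', hm', hm'0⟩ := exists_ne P (p + 1)
  have hdisj := P.isInternal.submodule_iSupIndep (p + 1)
  have hle : N ≤ ⨆ j, ⨆ (_ : j ≠ p + 1), P.comp j := by
    refine iSup_le fun i => ?_
    refine le_iSup₂_of_le i.1 ?_ le_rfl
    have := i.2
    omega
  exact hm'0 ((Submodule.disjoint_def.mp hdisj) m' hm' (hle (htop m')))

/-- one step -/
lemma exists_step (h : IsGPres k R c v) {p : ℕ} {z : P.M}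
    (hz : z ∈ P.comp p) (h0 : z ≠ 0) :
    ∃ (l : Fin n → k) (z' : P.M), l ≠ 0 ∧ z' ∈ P.comp (p + 1) ∧ z' ≠ 0 ∧
      ∀ j, MulOpposite.op (v j) • z = l j • z' := by
  obtain ⟨z', hz', hz'0⟩ := exists_ne P (p + 1)
  have h1 : ∀ j, ∃ t : k, t • z' = MulOpposite.op (v j) • z := by
    intro j
    have := smul_mem_one P hz _ (v_mem j)
    rw [comp_eq_span P hz' hz'0, Submodule.mem_span_singleton] at this
    exact this
  choose l hl using h1
  refine ⟨l, z', ?_, hz', hz'0, fun j => (hl j).symm⟩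
  rintro rfl
  obtain ⟨j, hj⟩ := exists_smul_ne P h hz h0
  exact hj (by rw [← hl j, Pi.zero_apply, zero_smul])

lemma gam (h : IsGPres k R c v) {z z' z'' : P.M} {l l' : Fin n → k} (hz'' : z'' ≠ 0)
    (hl : ∀ j, MulOpposite.op (v j) • z = l j • z')
    (hl' : ∀ j, MulOpposite.op (v j) • z' = l' j • z'') (r : Fin m) :
    ∑ a, ∑ b, c r a b * (l a * l' b) = 0 := by
  have h1 : MulOpposite.op (quad (c r) v) • z = (∑ a, ∑ b, c r a b * (l a * l' b)) • z'' := by
    simp only [quad, Finset.op_sum, MulOpposite.op_smul, MulOpposite.op_mul, Finset.sum_smul,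
      smul_assoc, mul_smul, hl]
    refine Finset.sum_congr rfl fun a _ => Finset.sum_congr rfl fun b _ => ?_
    rw [smul_comm (MulOpposite.op (v b)) (l a) z', hl']
  rw [h.rel, MulOpposite.op_zero, zero_smul] at h1
  exact (smul_eq_zero.mp h1.symm).resolve_right hz''

/-- the state of the recursion -/
def Good (p : ℕ) (z z' : P.M) (w : Fin n → k) : Prop :=
  z ∈ P.comp p ∧ z ≠ 0 ∧ z' ∈ P.comp (p + 1) ∧ z' ≠ 0 ∧
    ∀ j, MulOpposite.op (v j) • z = w j • z'

variable {I : Type*} {pt : I → Fin n → k} {sig : I → I}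

lemma good_zero (h : IsGPres k R c v) (hg : IsGraph c pt sig) :
    ∃ (i : I) (z z' : P.M), Good P 0 z z' (pt i) := by
  obtain ⟨z, hz, hz0⟩ := exists_ne P 0
  obtain ⟨l, z', hl0, hz', hz'0, hl⟩ := exists_step P h hz hz0
  obtain ⟨l', z'', hl'0, hz'', hz''0, hl'⟩ := exists_step P h hz' hz'0
  obtain ⟨i, s, t, hs, ht, h1, h2⟩ := hg.classify l l' hl0 hl'0 (gam P h hz''0 hl hl')
  refine ⟨i, z, s • z', hz, hz0, Submodule.smul_mem _ _ hz', smul_ne_zero hs hz'0, fun j => ?_⟩
  rw [hl, h1, Pi.smul_apply, smul_eq_mul, smul_smul, mul_comm]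

lemma good_succ (h : IsGPres k R c v) (hg : IsGraph c pt sig) {p : ℕ} {z z' : P.M} {i : I}
    (hG : Good P p z z' (pt i)) : ∃ z'' : P.M, Good P (p + 1) z' z'' (pt (sig i)) := by
  obtain ⟨hz, hz0, hz', hz'0, hl⟩ := hG
  obtain ⟨l', z'', hl'0, hz'', hz''0, hl'⟩ := exists_step P h hz' hz'0
  obtain ⟨i', s, t, hs, ht, h1, h2⟩ := hg.classify _ l' (hg.ne_zero i) hl'0
    (gam P h hz''0 hl hl')
  have hi : i = i' := hg.inj i i' s h1
  subst hi
  refine ⟨t • z'', hz', hz'0, Submodule.smul_mem _ _ hz'', smul_ne_zero ht hz''0, fun j => ?_⟩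
  rw [hl', h2, Pi.smul_apply, smul_eq_mul, smul_smul, mul_comm]

/-- the orbit of an index -/
def orb (sig : I → I) (i : I) : ℕ → I
  | 0 => i
  | (p + 1) => sig (orb sig i p)

lemma exists_seq (h : IsGPres k R c v) (hg : IsGraph c pt sig) :
    ∃ (i : I) (z : ℕ → P.M), (∀ p, z p ∈ P.comp p) ∧ (∀ p, z p ≠ 0) ∧
      ∀ p j, MulOpposite.op (v j) • z p = pt (orb sig i p) j • z (p + 1) := by
  obtain ⟨i, m0, m1, hG⟩ := good_zero P h hg
  have hs : ∀ (p : ℕ) (q : {q : P.M × P.M // Good P p q.1 q.2 (pt (orb sig i p))}),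
      ∃ m'' : P.M, Good P (p + 1) q.1.2 m'' (pt (orb sig i (p + 1))) :=
    fun p q => good_succ P h hg q.2
  choose nxt hnxt using hs
  let f : ∀ p, {q : P.M × P.M // Good P p q.1 q.2 (pt (orb sig i p))} := fun p =>
    Nat.rec ⟨(m0, m1), hG⟩ (fun p q => ⟨(q.1.2, nxt p q), hnxt p q⟩) p
  refine ⟨i, fun p => (f p).1.1, fun p => (f p).2.1, fun p => (f p).2.2.1, fun p j => ?_⟩
  exact (f p).2.2.2.2.2 j

/-- the isomorphism with the standard module -/
theorem iso_of_seq (h : IsGPres k R c v)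
    (ψ : Rᵐᵒᵖ →ₐ[k] Module.End k (ℕ →₀ k)) (l : ℕ → Fin n → k)
    (hψ : ∀ j, ψ (MulOpposite.op (v j)) = shiftOp l j) (hl : ∀ p, l p ≠ 0)
    (z : ℕ → P.M) (hz : ∀ p, z p ∈ P.comp p) (hz0 : ∀ p, z p ≠ 0)
    (hs : ∀ p j, MulOpposite.op (v j) • z p = l p j • z (p + 1)) :
    (mkPoint ψ l hψ hl).Iso P := by
  let f : (ℕ →₀ k) →ₗ[k] P.M := Finsupp.linearCombination k z
  have hf : ∀ p t, f (Finsupp.single p t) = t • z p := fun p t => by simp [f]
  have hsmul : ∀ (r : R) (w : ℕ →₀ k), f (ψ (MulOpposite.op r) w) = MulOpposite.op r • f w := by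
    intro r
    refine h.induction (fun r => ∀ w : ℕ →₀ k,
      f (ψ (MulOpposite.op r) w) = MulOpposite.op r • f w) ?_ ?_ ?_ ?_ r
    · intro j w
      induction w using Finsupp.induction_linear with
      | zero => simp
      | add a b ha hb => rw [map_add, map_add, ha, hb, map_add, smul_add]
      | single p t =>
        rw [hψ, shiftOp_single, hf, hf, smul_comm, hs, smul_smul]
    · intro t w
      have : MulOpposite.op (algebraMap k R t) = algebraMap k Rᵐᵒᵖ t := rfl
      rw [this, AlgHom.commutes, Module.algebraMap_end_apply, map_smul, algebraMap_smul]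
    · intro a b ha hb w
      rw [MulOpposite.op_add, map_add, LinearMap.add_apply, map_add, ha, hb, add_smul]
    · intro a b ha hb w
      rw [MulOpposite.op_mul, map_mul, Module.End.mul_apply, hb, ha, mul_smul]
  have hinj : Function.Injective f := by
    have hli : LinearIndependent k z :=
      iSupIndep.linearIndependent P.comp P.isInternal.submodule_iSupIndep hz hz0
    exact hli
  have hsurj : Function.Surjective f := by
    rw [← LinearMap.range_eq_top, eq_top_iff, ← P.isInternal.submodule_iSup_eq_top]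
    refine iSup_le fun p => ?_
    rw [comp_eq_span P (hz p) (hz0 p), Submodule.span_singleton_le_iff_mem]
    exact ⟨Finsupp.single p 1, by rw [hf, one_smul]⟩
  let g : (mkPoint ψ l hψ hl).M →ₗ[Rᵐᵒᵖ] P.M :=
    { toFun := fun w => f w
      map_add' := fun a b => map_add f a b
      map_smul' := fun r w => hsmul r.unop w }
  refine ⟨LinearEquiv.ofBijective g ⟨hinj, hsurj⟩, fun p w => ?_⟩
  change w ∈ LinearMap.range (Finsupp.lsingle p : k →ₗ[k] ℕ →₀ k) ↔ f w ∈ P.comp p
  constructor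
  · rintro ⟨t, rfl⟩
    rw [Finsupp.lsingle_apply, hf]
    exact Submodule.smul_mem _ _ (hz p)
  · intro hw
    rw [comp_eq_span P (hz p) (hz0 p), Submodule.mem_span_singleton] at hw
    obtain ⟨t, ht⟩ := hw
    refine ⟨t, hinj ?_⟩
    rw [Finsupp.lsingle_apply, hf, ht]

end Structure

/-- isomorphic standard modules have the same first point -/
theorem eq_smul_of_iso (ψ ψ' : Rᵐᵒᵖ →ₐ[k] Module.End k (ℕ →₀ k)) (l l' : ℕ → Fin n → k)
    (hψ : ∀ j, ψ (MulOpposite.op (v j)) = shiftOp l j) (hl : ∀ p, l p ≠ 0)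
    (hψ' : ∀ j, ψ' (MulOpposite.op (v j)) = shiftOp l' j) (hl' : ∀ p, l' p ≠ 0)
    (hiso : (mkPoint ψ l hψ hl).Iso (mkPoint ψ' l' hψ' hl')) : ∃ t : k, l 0 = t • l' 0 := by
  obtain ⟨f, hf⟩ := hiso
  have hsm : ∀ (t : k) (w : ℕ →₀ k), (f (t • w : ℕ →₀ k) : ℕ →₀ k) = t • (f w : ℕ →₀ k) := by
    intro t w
    have h1 := f.map_smul (algebraMap k Rᵐᵒᵖ t) w
    have h2 : (algebraMap k Rᵐᵒᵖ t) • (show (mkPoint ψ l hψ hl).M from w) =
        (t • w : ℕ →₀ k) := by
      change ψ (algebraMap k Rᵐᵒᵖ t) w = _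
      rw [AlgHom.commutes, Module.algebraMap_end_apply]
    have h3 : (algebraMap k Rᵐᵒᵖ t) • (f w) = (t • (f w : ℕ →₀ k) : ℕ →₀ k) := by
      change ψ' (algebraMap k Rᵐᵒᵖ t) (f w) = _
      rw [AlgHom.commutes]
      rfl
    rw [h2, h3] at h1
    exact h1
  obtain ⟨a, ha⟩ : ∃ a : k, (Finsupp.single 0 a : ℕ →₀ k) = f (Finsupp.single 0 1 : ℕ →₀ k) :=
    (hf 0 (Finsupp.single 0 1 : ℕ →₀ k)).mp ⟨1, rfl⟩
  obtain ⟨b, hb⟩ : ∃ b : k, (Finsupp.single 1 b : ℕ →₀ k) = f (Finsupp.single 1 1 : ℕ →₀ k) :=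
    (hf 1 (Finsupp.single 1 1 : ℕ →₀ k)).mp ⟨1, rfl⟩
  have hb0 : b ≠ 0 := by
    rintro rfl
    rw [Finsupp.single_zero] at hb
    have h1 : f (Finsupp.single 1 1 : ℕ →₀ k) = f 0 := by rw [← hb, map_zero]; rfl
    have h2 : (Finsupp.single 1 1 : ℕ →₀ k) = 0 := f.injective h1
    exact one_ne_zero (Finsupp.single_eq_zero.mp h2)
  refine ⟨a * b⁻¹, ?_⟩
  ext j
  have h1 := f.map_smul (MulOpposite.op (v j)) (Finsupp.single 0 1 : ℕ →₀ k)
  have h2 : (MulOpposite.op (v j)) • (show (mkPoint ψ l hψ hl).M from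
      (Finsupp.single 0 1 : ℕ →₀ k)) = (l 0 j • Finsupp.single 1 1 : ℕ →₀ k) := by
    change ψ (MulOpposite.op (v j)) (Finsupp.single 0 1 : ℕ →₀ k) = _
    rw [hψ, shiftOp_single, Finsupp.smul_single]
    simp
  have h3 : (MulOpposite.op (v j)) • f (Finsupp.single 0 1 : ℕ →₀ k) =
      (Finsupp.single 1 (a * l' 0 j) : ℕ →₀ k) := by
    rw [← ha]
    change ψ' (MulOpposite.op (v j)) (Finsupp.single 0 a : ℕ →₀ k) = _
    rw [hψ', shiftOp_single]
  rw [h2, h3] at h1
  have h4 : (Finsupp.single 1 (l 0 j * b) : ℕ →₀ k) = Finsupp.single 1 (a * l' 0 j) := by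
    have h5 := (hsm (l 0 j) (Finsupp.single 1 1 : ℕ →₀ k)).symm.trans h1
    rw [← hb] at h5
    have h7 : (Finsupp.single 1 (l 0 j * b) : ℕ →₀ k) = l 0 j • (Finsupp.single 1 b : ℕ →₀ k) := by
      rw [Finsupp.smul_single, smul_eq_mul]
    exact h7.trans h5
  have h6 := Finsupp.single_injective 1 h4
  rw [Pi.smul_apply, smul_eq_mul]
  field_simp
  linear_combination h6

theorem IsGPres.card_pointModuleClass (h : IsGPres k R c v) {I : Type*} {pt : I → Fin n → k}
    {sig : I → I} (hg : IsGraph c pt sig) :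
    Nat.card (PointModuleClass (powGrading k v)) = Nat.card I := by
  have hgam : ∀ (i : I) (p : ℕ) (r : Fin m),
      ∑ a, ∑ b, c r a b * (pt (orb sig i p) a * pt (orb sig i (p + 1)) b) = 0 :=
    fun i p r => hg.mem _ r
  have hact := fun i : I => h.exists_act (fun p => pt (orb sig i p)) (hgam i)
  choose ψ hψ using hact
  let F : I → PointModuleClass (powGrading k v) := fun i =>
    Quotient.mk (PointModule.setoid (powGrading k v))
      (mkPoint (ψ i) (fun p => pt (orb sig i p)) (hψ i) (fun p => hg.ne_zero _))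
  refine (Nat.card_congr (Equiv.ofBijective F ⟨?_, ?_⟩)).symm
  · intro i j hij
    have h1 := Quotient.exact hij
    obtain ⟨t, ht⟩ := eq_smul_of_iso _ _ _ _ _ _ _ _ h1
    exact hg.inj i j t ht
  · intro q
    obtain ⟨P, rfl⟩ := Quotient.exists_rep q
    obtain ⟨i, z, hz, hz0, hs⟩ := exists_seq P h hg
    refine ⟨i, Quotient.sound ?_⟩
    exact iso_of_seq P h (ψ i) _ (hψ i) _ z hz hz0 hs

end Pool.Agent.GQA
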