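import Pool.Agent.MP_a6a2ff_al.Defs
import Pool.Agent.GQA.Pres

/-!
# The algebra is quadratic
-/

set_option linter.unusedSimpArgs false
set_option linter.unusedVariables false
set_option linter.unusedSectionVars false

universe u

open Pool.Agent.MP_a6a2ff_al (IsQuadratic)

namespace Pool.Agent.GQA

variable {k : Type u} [Field k] {R : Type u} [Ring R] [Algebra k R] {n m : ℕ}
  {c : Fin m → Matrix (Fin n) (Fin n) k} {v : Fin n → R}

theorem IsGPres.isQuadratic (h : IsGPres k R c v) : IsQuadratic (powGrading k v) where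
  surjective := by
    rw [← AlgHom.range_eq_top, ← top_le_iff, ← h.gen]
    refine Algebra.adjoin_le ?_
    rintro _ ⟨i, rfl⟩
    exact ⟨TensorAlgebra.ι k ⟨v i, v_mem_one i⟩, by simp⟩
  relations := by
    apply le_antisymm
    · intro t ht
      rw [TwoSidedIdeal.mem_ker] at ht
      obtain ⟨L, hL⟩ : ∃ L, L = TensorAlgebra.lift k (powGrading k v 1).subtype := ⟨_, rfl⟩
      rw [← hL] at ht ⊢
      obtain ⟨I, hI⟩ : ∃ I, I = TwoSidedIdeal.span {t : TensorAlgebra k (powGrading k v 1) |
        t ∈ (LinearMap.range (TensorAlgebra.ι k : powGrading k v 1 →ₗ[k]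
          TensorAlgebra k (powGrading k v 1))) ^ 2 ∧ L t = 0} := ⟨_, rfl⟩
      rw [← hI]
      have hι : ∀ w : powGrading k v 1, L (TensorAlgebra.ι k w) = w := by
        intro w
        rw [hL, TensorAlgebra.lift_ι_apply]
        rfl
      obtain ⟨π, hπ⟩ : ∃ π, π = RingCon.mkₐ k I.ringCon := ⟨_, rfl⟩
      have hπ0 : ∀ s, π s = 0 ↔ s ∈ I := by
        intro s
        have h1 : TwoSidedIdeal.ker I.ringCon.mk' = I := TwoSidedIdeal.ker_ringCon_mk' I
        have h2 : s ∈ TwoSidedIdeal.ker I.ringCon.mk' ↔ I.ringCon.mk' s = 0 :=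
          TwoSidedIdeal.mem_ker _
        rw [h1] at h2
        rw [h2, hπ]
        rfl
      have hmul : ∀ v' w : powGrading k v 1,
          TensorAlgebra.ι k v' * TensorAlgebra.ι k w ∈
          (LinearMap.range (TensorAlgebra.ι k : powGrading k v 1 →ₗ[k]
          TensorAlgebra k (powGrading k v 1))) ^ 2 := by
        intro v' w
        rw [pow_two]
        exact Submodule.mul_mem_mul ⟨v', rfl⟩ ⟨w, rfl⟩
      obtain ⟨w, hw⟩ : ∃ w : Fin n → powGrading k v 1, ∀ i, (w i : R) = v i :=
        ⟨fun i => ⟨v i, v_mem_one i⟩, fun i => rfl⟩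
      have hR : ∀ r, quad (c r) (fun i => π (TensorAlgebra.ι k (w i))) = 0 := by
        intro r
        rw [← map_quad, hπ0, hI]
        refine TwoSidedIdeal.subset_span ⟨?_, ?_⟩
        · unfold quad
          exact sum_mem fun i _ => sum_mem fun j _ => Submodule.smul_mem _ _ (hmul _ _)
        · rw [map_quad]
          simp only [hι, hw]
          exact h.rel r
      obtain ⟨φ, hφ0⟩ := h.univ _ _ hR
      have hφ : ∀ z : R, (hz : z ∈ genSpan k v) →
          φ z = π (TensorAlgebra.ι k ⟨z, mem_one_of_mem hz⟩) := by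
        intro z hz
        have hz' := hz
        unfold genSpan at hz'
        induction hz' using Submodule.span_induction with
        | mem z hz1 =>
          obtain ⟨i, rfl⟩ := hz1
          rw [hφ0]
          congr 2
          exact Subtype.ext (hw i)
        | zero =>
          have : (⟨0, mem_one_of_mem hz⟩ : powGrading k v 1) = 0 := rfl
          rw [this, map_zero, map_zero, map_zero]
        | add a b ha hb iha ihb =>
          have : (⟨a + b, mem_one_of_mem hz⟩ : powGrading k v 1) =
            ⟨a, mem_one_of_mem ha⟩ + ⟨b, mem_one_of_mem hb⟩ := rfl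
          rw [this, map_add, map_add, map_add, iha ha, ihb hb]
        | smul c a ha iha =>
          have : (⟨c • a, mem_one_of_mem hz⟩ : powGrading k v 1) =
            c • ⟨a, mem_one_of_mem ha⟩ := rfl
          rw [this, map_smul, map_smul, map_smul, iha ha]
      have hcomp : φ.comp L = π := by
        apply TensorAlgebra.hom_ext
        ext z
        obtain ⟨z, hz⟩ := z
        simp only [AlgHom.comp_toLinearMap, LinearMap.comp_apply, AlgHom.toLinearMap_apply]
        rw [hι]
        exact hφ z (by simpa [powGrading] using hz)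
      rw [← hπ0, ← hcomp, AlgHom.comp_apply, ht, map_zero]
    · rw [TwoSidedIdeal.span_le]
      rintro t ⟨-, ht⟩
      exact (TwoSidedIdeal.mem_ker _).mpr ht

end Pool.Agent.GQA
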