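import Pool.Agent.MP_a6a2ff_al.Hilbert
import Pool.Agent.GQA.Quadratic
import Pool.Agent.GQA.Kos

/-!
# Artin-Schelter regularity of a quadratic algebra with an exact Koszul complex
-/

set_option linter.unusedSimpArgs false
set_option linter.unusedVariables false
set_option linter.unusedSectionVars false

universe u

open CategoryTheory Module Abelian TensorProduct
open Pool.Agent.MP_a6a2ff_al (IsASRegular IsLeftRegular augIdeal TrivialModule opGrading
  dL dR Cross exact_perturbed injective_perturbed dL_single dR_single hom_ext_single evMap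
  evMap_tmul evMap_surjective pd_le_four degMap coe_degMap degMap_exact degMap_rank
  degMap_rank_zero pr pr_mem pr_of_mem pr_vecMul growth_of_rec choose_of_rec hom_eq_sum
  dual_exact_of_mulVec extend_of_dual_exact exact_kerMap kerMap kerMap_surjective ker_kerMap
  extOneMap extOneMap_smul extOneMap_surjective extOneMap_eq_zero_iff ext_one_subsingleton
  ext_shift_subsingleton ext_shift_finrank comp_eq_zero_of_exact)

namespace Pool.Agent.GQA

section Basic

variable {k : Type*} [Field k] {R : Type*} [Ring R] [Algebra k R] {n m : ℕ}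
  (c : Fin m → Matrix (Fin n) (Fin n) k) (D : Matrix (Fin m) (Fin m) k) (v : Fin n → R)

lemma vecMul_rowV (a : Fin 1 → R) (i : Fin n) : Matrix.vecMul a (rowV v) i = a 0 * v i := by
  simp [Matrix.vecMul, dotProduct, rowV]

lemma vecMul_colV (a : Fin n → R) (i : Fin 1) :
    Matrix.vecMul a (colV v) i = ∑ j, a j * v j := by
  simp [Matrix.vecMul, dotProduct, colV]

lemma mulVec_rowV (b : Fin n → R) (i : Fin 1) :
    (rowV v).mulVec b i = ∑ j, v j * b j := by
  simp [Matrix.mulVec, dotProduct, rowV]

lemma mulVec_colV (b : Fin 1 → R) (i : Fin n) : (colV v).mulVec b i = v i * b 0 := by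
  simp [Matrix.mulVec, dotProduct, colV]

lemma mulVec_mR (b : Fin n → R) (s : Fin m) :
    (mR c v).mulVec b s = ∑ j, ev v (fun i => c s i j) * b j := rfl

lemma mulVec_mL (b : Fin m → R) (i : Fin n) :
    (mL c v).mulVec b i = ∑ s, ev v (fun j => c s i j) * b s := rfl

lemma mulVec_mD (b : Fin m → R) (i : Fin n) :
    (mD c D v).mulVec b i = (mL c v).mulVec (fun r => ∑ s, D r s • b s) i := by
  simp only [Matrix.mulVec, dotProduct, mD_eq, Finset.sum_mul, Finset.mul_sum, smul_mul_assoc,
    mul_smul_comm]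
  exact Finset.sum_comm

lemma smul_sum_inv {D D' : Matrix (Fin m) (Fin m) k} (hD : D * D' = 1) (b : Fin m → R)
    (r : Fin m) : ∑ s, D r s • ∑ t, D' s t • b t = b r := by
  simp only [Finset.smul_sum, smul_smul]
  rw [Finset.sum_comm]
  have h : ∀ t, ∑ s, (D r s * D' s t) • b t = (1 : Matrix (Fin m) (Fin m) k) r t • b t := by
    intro t
    rw [← Finset.sum_smul, ← hD, Matrix.mul_apply]
  simp only [h, Matrix.one_apply, ite_smul, one_smul, zero_smul, Finset.sum_ite_eq,
    Finset.mem_univ, if_true]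

lemma ev_op (l : Fin n → k) :
    ev (fun i => MulOpposite.op (v i)) l = MulOpposite.op (ev v l) := by
  simp only [ev, Finset.op_sum, MulOpposite.op_smul]

end Basic

section Exactness

variable {k : Type u} [Field k] {R : Type u} [Ring R] [Algebra k R] {n m : ℕ}
  {c : Fin m → Matrix (Fin n) (Fin n) k} {D : Matrix (Fin m) (Fin m) k} {v : Fin n → R}

lemma mD_mem (i : Fin n) (s : Fin m) : mD c D v i s ∈ genSpan k v := ev_mem v _

lemma mR_mem (s : Fin m) (j : Fin n) : mR c v s j ∈ genSpan k v := ev_mem v _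

lemma colV_mem (i : Fin n) (j : Fin 1) : colV v i j ∈ genSpan k v := v_mem i

lemma rowV_mem (i : Fin 1) (j : Fin n) : rowV v i j ∈ genSpan k v := v_mem j

lemma injective0 (K : KData c) (hK : IsKoszul K v) :
    Function.Injective (rowV v).vecMulLinear := by
  rw [injective_iff_map_eq_zero]
  intro a ha
  rw [Matrix.vecMulLinear_apply] at ha
  ext i
  fin_cases i
  refine hK.inj _ fun j => ?_
  have := congrFun ha j
  rwa [vecMul_rowV] at this

lemma exact01 (hv : ∀ r, quad (c r) v = 0) (K : KData c) (hK : IsKoszul K v) :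
    Function.Exact (rowV v).vecMulLinear (mD c K.D v).vecMulLinear := by
  intro a
  rw [Matrix.vecMulLinear_apply]
  constructor
  · intro ha
    obtain ⟨e, he⟩ := hK.ex01 a ha
    refine ⟨fun _ => e, ?_⟩
    ext i
    rw [Matrix.vecMulLinear_apply, vecMul_rowV, he]
  · rintro ⟨b, rfl⟩
    rw [Matrix.vecMulLinear_apply, Matrix.vecMul_vecMul, rowV_mul_mD c K.D v hv,
      Matrix.vecMul_zero]

lemma exact12 (hv : ∀ r, quad (c r) v = 0) (K : KData c) (hK : IsKoszul K v) :
    Function.Exact (mD c K.D v).vecMulLinear (mR c v).vecMulLinear := by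
  intro a
  rw [Matrix.vecMulLinear_apply]
  constructor
  · intro ha
    obtain ⟨e, he⟩ := hK.ex12 a ha
    exact ⟨e, by rw [Matrix.vecMulLinear_apply, he]⟩
  · rintro ⟨b, rfl⟩
    rw [Matrix.vecMulLinear_apply, Matrix.vecMul_vecMul, mD_mul_mR K v hv, Matrix.vecMul_zero]

lemma IsGPres.exact23 (h : IsGPres k R c v) :
    Function.Exact (mR c v).vecMulLinear (colV v).vecMulLinear := by
  intro a
  rw [Matrix.vecMulLinear_apply]
  constructor
  · intro ha
    refine h.mem_rowSpan a ?_
    rw [← vecMul_colV v a 0, ha]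
    rfl
  · rintro ⟨b, rfl⟩
    rw [Matrix.vecMulLinear_apply, Matrix.vecMul_vecMul, mR_mul_colV c v h.rel,
      Matrix.vecMul_zero]

lemma dual0 (K : KData c) (hK' : IsKoszul K.op (fun i => MulOpposite.op (v i)))
    (b : Fin 1 → R) (hb : (colV v).mulVec b = 0) : b = 0 := by
  ext i
  fin_cases i
  apply MulOpposite.op_injective
  refine hK'.inj (MulOpposite.op (b 0)) fun i => ?_
  have := congrFun hb i
  rw [mulVec_colV] at this
  rw [← MulOpposite.op_mul, this]
  rfl

lemma dual1 (K : KData c) (hK' : IsKoszul K.op (fun i => MulOpposite.op (v i)))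
    (b : Fin n → R) (hb : (mR c v).mulVec b = 0) :
    ∃ e : Fin 1 → R, b = (colV v).mulVec e := by
  obtain ⟨e, he⟩ := hK'.ex01 (fun i => MulOpposite.op (b i)) (by
    ext s
    have h1 : ∀ i, mD (fun r => (c r).transpose) K.op.D (fun i => MulOpposite.op (v i)) i s =
        ∑ r, K.D s r • MulOpposite.op (mR c v r i) := by
      intro i
      rw [mD_eq]
      refine Finset.sum_congr rfl fun r _ => ?_
      rw [mL_apply, ev_op, mR_apply]
      rfl
    have h2 : Matrix.vecMul (fun i => MulOpposite.op (b i))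
        (mD (fun r => (c r).transpose) K.op.D (fun i => MulOpposite.op (v i))) s =
        ∑ r, K.D s r • MulOpposite.op ((mR c v).mulVec b r) := by
      simp only [Matrix.vecMul, dotProduct, h1, Finset.mul_sum, mul_smul_comm,
        ← MulOpposite.op_mul, mulVec_mR, mR_apply, Finset.op_sum, Finset.smul_sum]
      exact Finset.sum_comm
    rw [h2, hb]
    simp)
  refine ⟨fun _ => MulOpposite.unop e, ?_⟩
  ext i
  rw [mulVec_colV]
  apply MulOpposite.op_injective
  rw [he i, MulOpposite.op_mul, MulOpposite.op_unop]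

lemma dual2 (K : KData c) (hK' : IsKoszul K.op (fun i => MulOpposite.op (v i)))
    (b : Fin m → R) (hb : (mD c K.D v).mulVec b = 0) :
    ∃ e : Fin n → R, b = (mR c v).mulVec e := by
  obtain ⟨a, ha⟩ := hK'.ex12 (fun r => MulOpposite.op (∑ s, K.D r s • b s)) (by
    ext i
    have h2 : Matrix.vecMul (fun r => MulOpposite.op (∑ s, K.D r s • b s))
        (mR (fun r => (c r).transpose) (fun i => MulOpposite.op (v i))) i =
        MulOpposite.op ((mL c v).mulVec (fun r => ∑ s, K.D r s • b s) i) := by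
      simp only [Matrix.vecMul, dotProduct, mR_apply, ev_op, mulVec_mL,
        Finset.op_sum, MulOpposite.op_mul, Matrix.transpose_apply]
    rw [h2, ← mulVec_mD, hb]
    rfl)
  refine ⟨fun i => MulOpposite.unop (a i), ?_⟩
  have h3 : ∀ r, ∑ s, K.D r s • b s =
      ∑ s, K.D r s • (mR c v).mulVec (fun i => MulOpposite.unop (a i)) s := by
    intro r
    apply MulOpposite.op_injective
    rw [congrFun ha r]
    simp only [Matrix.vecMul, dotProduct, mD_eq, mL_apply, ev_op, Matrix.mulVec, mR_apply,
      Finset.op_sum, MulOpposite.op_smul, MulOpposite.op_mul, MulOpposite.op_unop,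
      Finset.mul_sum, Finset.smul_sum, mul_smul_comm, KData.op, Matrix.transpose_apply]
    exact Finset.sum_comm
  ext r
  have h4 := smul_sum_inv K.hD' b r
  have h5 := smul_sum_inv K.hD' ((mR c v).mulVec (fun i => MulOpposite.unop (a i))) r
  rw [← h4, ← h5]
  simp only [h3]

lemma IsGPres.dual3 (h : IsGPres k R c v) (K : KData c)
    (b : Fin n → R) (hb : (rowV v).mulVec b = 0) :
    ∃ e : Fin m → R, b = (mD c K.D v).mulVec e := by
  obtain ⟨e, he⟩ := h.op.mem_rowSpan (fun i => MulOpposite.op (b i)) (by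
    have := congrFun hb 0
    rw [mulVec_rowV] at this
    simp only [← MulOpposite.op_mul, ← Finset.op_sum]
    rw [this]
    rfl)
  refine ⟨fun r => ∑ s, K.D' r s • MulOpposite.unop (e s), ?_⟩
  ext i
  rw [mulVec_mD]
  have h1 : (fun r => ∑ s, K.D r s • ∑ t, K.D' s t • MulOpposite.unop (e t)) =
      fun r => MulOpposite.unop (e r) := by
    ext r
    exact smul_sum_inv K.hD (fun r => MulOpposite.unop (e r)) r
  rw [h1]
  apply MulOpposite.op_injective
  rw [← congrFun he i, Matrix.vecMulLinear_apply]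
  simp only [Matrix.vecMul, dotProduct, mR_apply, ev_op, mulVec_mL, Finset.op_sum,
    MulOpposite.op_mul, MulOpposite.op_unop, Matrix.transpose_apply]

end Exactness

section Aug

variable {k : Type u} [Field k] {R : Type u} [Ring R] [Algebra k R] {n m : ℕ}
  {c : Fin m → Matrix (Fin n) (Fin n) k} {v : Fin n → R}

/-- the augmentation -/
lemma IsGPres.exists_aug (h : IsGPres k R c v) : ∃ ε : R →ₐ[k] k, ∀ i, ε (v i) = 0 := by
  obtain ⟨ε, hε⟩ := h.univ k (fun _ => 0) (fun r => by simp [quad])
  exact ⟨ε, hε⟩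

lemma IsGPres.aug_right (h : IsGPres k R c v) (ε : R →ₐ[k] k) (hε : ∀ i, ε (v i) = 0) (b : R) :
    ∃ a : Fin n → R, b - algebraMap k R (ε b) = ∑ i, v i * a i := by
  refine h.induction (fun b => ∃ a : Fin n → R, b - algebraMap k R (ε b) = ∑ i, v i * a i)
    ?_ ?_ ?_ ?_ b
  · intro j
    refine ⟨Pi.single j 1, ?_⟩
    rw [hε, map_zero, sub_zero, Finset.sum_eq_single j]
    · simp
    · intro i _ hi
      simp [Pi.single_eq_of_ne hi]
    · simp
  · intro t
    exact ⟨0, by simp⟩
  · rintro a b ⟨f, hf⟩ ⟨g, hg⟩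
    refine ⟨f + g, ?_⟩
    simp only [Pi.add_apply, mul_add, Finset.sum_add_distrib, ← hf, ← hg, map_add]
    abel
  · rintro a b ⟨f, hf⟩ ⟨g, hg⟩
    refine ⟨fun i => f i * b + g i * algebraMap k R (ε a), ?_⟩
    have hcomm := Algebra.commutes (ε a) (b - algebraMap k R (ε b))
    have : a * b - algebraMap k R (ε (a * b)) =
        (a - algebraMap k R (ε a)) * b + (b - algebraMap k R (ε b)) * algebraMap k R (ε a) := by
      rw [← hcomm, map_mul, map_mul, sub_mul, mul_sub]; abel
    rw [this, hf, hg]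
    simp only [mul_add, Finset.sum_add_distrib, Finset.sum_mul, mul_assoc]

lemma IsGPres.aug_left (h : IsGPres k R c v) (ε : R →ₐ[k] k) (hε : ∀ i, ε (v i) = 0) (b : R) :
    ∃ a : Fin n → R, b - algebraMap k R (ε b) = ∑ i, a i * v i := by
  refine h.induction (fun b => ∃ a : Fin n → R, b - algebraMap k R (ε b) = ∑ i, a i * v i)
    ?_ ?_ ?_ ?_ b
  · intro j
    refine ⟨Pi.single j 1, ?_⟩
    rw [hε, map_zero, sub_zero, Finset.sum_eq_single j]
    · simp
    · intro i _ hi
      simp [Pi.single_eq_of_ne hi]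
    · simp
  · intro t
    exact ⟨0, by simp⟩
  · rintro a b ⟨f, hf⟩ ⟨g, hg⟩
    refine ⟨f + g, ?_⟩
    simp only [Pi.add_apply, add_mul, Finset.sum_add_distrib, ← hf, ← hg, map_add]
    abel
  · rintro a b ⟨f, hf⟩ ⟨g, hg⟩
    refine ⟨fun i => algebraMap k R (ε b) * f i + a * g i, ?_⟩
    have hcomm := Algebra.commutes (ε b) (a - algebraMap k R (ε a))
    have : a * b - algebraMap k R (ε (a * b)) =
        algebraMap k R (ε b) * (a - algebraMap k R (ε a)) + a * (b - algebraMap k R (ε b)) := by
      rw [hcomm, map_mul, map_mul, sub_mul, mul_sub]; abel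
    rw [this, hf, hg]
    simp only [add_mul, Finset.sum_add_distrib, Finset.mul_sum, mul_assoc]

lemma mem_augIdeal_iff (h : IsGPres k R c v) (ε : R →ₐ[k] k) (hε : ∀ i, ε (v i) = 0)
    (ℬ : ℕ → Submodule k R) (hℬ : ∀ j, ℬ j = genSpan k v ^ j) (b : R) :
    b ∈ augIdeal ℬ ↔ ε b = 0 := by
  constructor
  · intro hb
    unfold augIdeal at hb
    induction hb using Submodule.span_induction with
    | mem z hz =>
      obtain ⟨j, hj, hz⟩ := hz
      obtain ⟨l, rfl⟩ : ∃ l, j = l + 1 := ⟨j - 1, by omega⟩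
      rw [hℬ, pow_succ] at hz
      induction hz using Submodule.mul_induction_on' with
      | mem_mul_mem p _ w hw =>
        have : ε w = 0 := by
          unfold genSpan at hw
          induction hw using Submodule.span_induction with
          | mem w hw =>
            obtain ⟨i, rfl⟩ := hw
            exact hε i
          | zero => simp
          | add a b _ _ iha ihb => rw [map_add, iha, ihb, add_zero]
          | smul c a _ iha => rw [map_smul, iha, smul_zero]
        rw [map_mul, this, mul_zero]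
      | add a _ b _ iha ihb => rw [map_add, iha, ihb, add_zero]
    | zero => simp
    | add a b _ _ iha ihb => rw [map_add, iha, ihb, add_zero]
    | smul c a _ iha => rw [smul_eq_mul, map_mul, iha, mul_zero]
  · intro hb
    obtain ⟨a, ha⟩ := h.aug_left ε hε b
    rw [hb, map_zero, sub_zero] at ha
    rw [ha]
    refine sum_mem fun i _ => Submodule.smul_mem _ (a i) (Submodule.subset_span ⟨1, one_pos, ?_⟩)
    rw [hℬ, pow_one]
    exact v_mem i

/-- the last map of the resolution of the trivial module -/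
def lastMap (ℬ : ℕ → Submodule k R) : (Fin 1 → R) →ₗ[R] TrivialModule ℬ :=
  (augIdeal ℬ).mkQ ∘ₗ LinearMap.proj 0

lemma lastMap_surjective (ℬ : ℕ → Submodule k R) : Function.Surjective (lastMap ℬ) := by
  intro q
  obtain ⟨r, rfl⟩ := Submodule.mkQ_surjective _ q
  exact ⟨fun _ => r, rfl⟩

lemma IsGPres.exact34 (h : IsGPres k R c v)
    (ℬ : ℕ → Submodule k R) (hℬ : ∀ j, ℬ j = genSpan k v ^ j) :
    Function.Exact (colV v).vecMulLinear (lastMap ℬ) := by
  obtain ⟨ε, hε⟩ := h.exists_aug
  intro a
  have h1 : lastMap ℬ a = 0 ↔ a 0 ∈ augIdeal ℬ := by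
    change (augIdeal ℬ).mkQ (a 0) = 0 ↔ _
    rw [Submodule.mkQ_apply, Submodule.Quotient.mk_eq_zero]
  rw [h1, mem_augIdeal_iff h ε hε ℬ hℬ]
  constructor
  · intro ha
    obtain ⟨b, hb⟩ := h.aug_left ε hε (a 0)
    rw [ha, map_zero, sub_zero] at hb
    refine ⟨b, ?_⟩
    rw [Matrix.vecMulLinear_apply]
    ext i
    fin_cases i
    exact (vecMul_colV v b 0).trans hb.symm
  · rintro ⟨b, rfl⟩
    rw [Matrix.vecMulLinear_apply, vecMul_colV, map_sum]
    exact Finset.sum_eq_zero fun i _ => by rw [map_mul, hε, mul_zero]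

theorem IsGPres.pd_trivial (h : IsGPres k R c v) (K : KData c) (hK : IsKoszul K v)
    (ℬ : ℕ → Submodule k R) (hℬ : ∀ j, ℬ j = genSpan k v ^ j) :
    HasProjectiveDimensionLE (ModuleCat.of R (TrivialModule ℬ)) 4 :=
  pd_le_four _ _ _ _ (lastMap ℬ) (injective0 K hK) (exact01 h.rel K hK) (exact12 h.rel K hK)
    h.exact23 (h.exact34 ℬ hℬ) (lastMap_surjective ℬ)

theorem IsGPres.ext_zero (h : IsGPres k R c v) (K : KData c)
    (hK' : IsKoszul K.op (fun i => MulOpposite.op (v i)))
    (ℬ : ℕ → Submodule k R) (hℬ : ∀ j, ℬ j = genSpan k v ^ j) :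
    Subsingleton (Ext (ModuleCat.of R (TrivialModule ℬ)) (ModuleCat.of R R) 0) := by
  have hsub : Subsingleton (ModuleCat.of R (TrivialModule ℬ) ⟶ ModuleCat.of R R) := by
    refine ⟨fun φ ψ => ?_⟩
    suffices H : ∀ φ : TrivialModule ℬ →ₗ[R] R, φ = 0 by
      ext1
      rw [H φ.hom, H ψ.hom]
    intro φ
    have hb : ((colV v).mulVec fun _ => φ (lastMap ℬ fun _ => 1)) = 0 := by
      ext i
      rw [mulVec_colV, ← smul_eq_mul, ← map_smul, ← map_smul]
      have : lastMap ℬ (v i • fun _ => 1) = 0 := by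
        change (augIdeal ℬ).mkQ (v i • (1 : R)) = 0
        rw [Submodule.mkQ_apply, Submodule.Quotient.mk_eq_zero]
        rw [smul_eq_mul, mul_one]
        exact Submodule.subset_span ⟨1, one_pos, by rw [hℬ, pow_one]; exact v_mem i⟩
      rw [this, map_zero]
      rfl
    have h0 := congrFun (dual0 K hK' _ hb) 0
    refine LinearMap.ext fun q => ?_
    obtain ⟨a, rfl⟩ := lastMap_surjective ℬ q
    have : a = a 0 • (fun _ => 1) := by ext i; fin_cases i; simp
    rw [this, map_smul, map_smul]
    change a 0 • φ (lastMap ℬ fun _ => 1) = 0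
    have h0' : φ (lastMap ℬ fun _ => 1) = 0 := h0
    rw [h0', smul_zero]
  exact (Ext.linearEquiv₀ (R := k)).injective.subsingleton

theorem IsGPres.ext_one (h : IsGPres k R c v) (K : KData c)
    (hK' : IsKoszul K.op (fun i => MulOpposite.op (v i)))
    (ℬ : ℕ → Submodule k R) (hℬ : ∀ j, ℬ j = genSpan k v ^ j) :
    Subsingleton (Ext (ModuleCat.of R (TrivialModule ℬ)) (ModuleCat.of R R) 1) := by
  refine ext_one_subsingleton k (lastMap ℬ) (lastMap_surjective ℬ) R ?_
  exact extend_of_dual_exact (mR c v).vecMulLinear (colV v).vecMulLinear _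
    (h.exact34 ℬ hℬ) (comp_eq_zero_of_exact h.exact23)
    (dual_exact_of_mulVec _ _ (dual1 K hK'))

theorem IsGPres.ext_two (h : IsGPres k R c v) (K : KData c) (hK : IsKoszul K v)
    (hK' : IsKoszul K.op (fun i => MulOpposite.op (v i)))
    (ℬ : ℕ → Submodule k R) (hℬ : ∀ j, ℬ j = genSpan k v ^ j) :
    Subsingleton (Ext (ModuleCat.of R (TrivialModule ℬ)) (ModuleCat.of R R) 2) := by
  refine ext_shift_subsingleton k (lastMap ℬ) (lastMap_surjective ℬ) _ 0 ?_
  refine ext_one_subsingleton k (kerMap (colV v).vecMulLinear (lastMap ℬ) (h.exact34 ℬ hℬ))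
    (kerMap_surjective _ _ _) R ?_
  exact extend_of_dual_exact (mD c K.D v).vecMulLinear (mR c v).vecMulLinear _
    (exact_kerMap _ _ _ _ h.exact23) (comp_eq_zero_of_exact (exact12 h.rel K hK))
    (dual_exact_of_mulVec _ _ (dual2 K hK'))

theorem IsGPres.ext_three (h : IsGPres k R c v) (K : KData c) (hK : IsKoszul K v)
    (ℬ : ℕ → Submodule k R) (hℬ : ∀ j, ℬ j = genSpan k v ^ j) :
    Subsingleton (Ext (ModuleCat.of R (TrivialModule ℬ)) (ModuleCat.of R R) 3) := by
  refine ext_shift_subsingleton k (lastMap ℬ) (lastMap_surjective ℬ) _ 1 ?_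
  refine ext_shift_subsingleton k (kerMap (colV v).vecMulLinear (lastMap ℬ)
    (h.exact34 ℬ hℬ)) (kerMap_surjective _ _ _) _ 0 ?_
  refine ext_one_subsingleton k (kerMap (mR c v).vecMulLinear _
    (exact_kerMap _ _ _ _ h.exact23)) (kerMap_surjective _ _ _) R ?_
  exact extend_of_dual_exact (rowV v).vecMulLinear (mD c K.D v).vecMulLinear _
    (exact_kerMap _ _ _ _ (exact12 h.rel K hK)) (comp_eq_zero_of_exact (exact01 h.rel K hK))
    (dual_exact_of_mulVec _ _ (h.dual3 K))

/-- General computation of the top `Ext`. -/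
lemma top_ext_finrank (h : IsGPres k R c v) (ε : R →ₐ[k] k) (hε : ∀ i, ε (v i) = 0)
    {N : Type u} [AddCommGroup N]
    [Module R N] (g : (Fin n → R) →ₗ[R] N) (hg : Function.Surjective g)
    (hD : Function.Exact (rowV v).vecMulLinear g)
    (hinj : Function.Injective (rowV v).vecMulLinear) :
    Module.finrank k (Ext (ModuleCat.of R N) (ModuleCat.of R R) 1) = 1 := by
  have hbij : Function.Bijective (kerMap (rowV v).vecMulLinear g hD) := by
    refine ⟨?_, kerMap_surjective _ _ _⟩
    rw [← LinearMap.ker_eq_bot, ker_kerMap, LinearMap.ker_eq_bot]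
    exact hinj
  let e := LinearEquiv.ofBijective _ hbij
  let F : R → (ModuleCat.of R (LinearMap.ker g) ⟶ ModuleCat.of R R) := fun b => ModuleCat.ofHom
        ((Fintype.linearCombination R (fun _ : Fin 1 => b)) ∘ₗ e.symm.toLinearMap)
  have hFadd : ∀ b c, F (b + c) = F b + F c := fun b c => by
    ext z
    simp [F, Fintype.linearCombination_apply, mul_add]
  have hFsmul : ∀ (t : k) (b : R), F (t • b) =
      (Linear.homModule (R := k) (ModuleCat.of R (LinearMap.ker g)) (ModuleCat.of R R)).smul
        t (F b) := fun t b => by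
    ext z
    change (F (t • b)).hom z = (algebraMap k R t) • ((F b).hom z : R)
    simp [F, Fintype.linearCombination_apply, Algebra.smul_def]
    rw [← mul_assoc, ← Algebra.commutes, mul_assoc]
  let c : R →ₗ[k] Ext (ModuleCat.of R N) (ModuleCat.of R R) 1 :=
    { toFun := fun b => extOneMap k g hg (ModuleCat.of R R) (F b)
      map_add' := fun b c => by rw [hFadd, map_add]
      map_smul' := fun t b => by
        rw [hFsmul]
        exact extOneMap_smul g hg (ModuleCat.of R R) t (F b) }
  have hc : Function.Surjective c := by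
    intro z
    obtain ⟨φ, rfl⟩ := extOneMap_surjective (k := k) g hg (ModuleCat.of R R) z
    refine ⟨φ.hom (e ![1]), ?_⟩
    change extOneMap k g hg (ModuleCat.of R R) (F _) = _
    congr 1
    ext z
    obtain ⟨n, rfl⟩ := e.surjective z
    have hn : n = n 0 • ![1] := by
      ext i; fin_cases i; simp
    change (Fintype.linearCombination R (fun _ : Fin 1 => (φ.hom (e ![1]) : R))) (e.symm (e n)) = _
    rw [LinearEquiv.symm_apply_apply]
    conv_rhs => rw [hn, map_smul, map_smul]
    simp [Fintype.linearCombination_apply]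
  have hker : LinearMap.ker c = LinearMap.ker ε.toLinearMap := by
    ext b
    rw [LinearMap.mem_ker, LinearMap.mem_ker]
    change extOneMap k g hg (ModuleCat.of R R) (F b) = 0 ↔ ε b = 0
    rw [extOneMap_eq_zero_iff]
    have hval : ∀ n : Fin 1 → R, (F b).hom (e n) = n 0 * b := by
      intro n
      change (Fintype.linearCombination R (fun _ : Fin 1 => b)) (e.symm (e n)) = _
      rw [LinearEquiv.symm_apply_apply]
      simp [Fintype.linearCombination_apply]
    constructor
    · rintro ⟨ψ, hψ⟩
      have h1 : ψ ((rowV v).vecMulLinear ![1]) = b := by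
        have h2 := LinearMap.congr_fun hψ (e ![1])
        rw [hval] at h2
        have h3 : ((![1] : Fin 1 → R) 0) * b = b := by simp
        rw [h3] at h2
        exact h2
      rw [hom_eq_sum, Matrix.vecMulLinear_apply] at h1
      simp only [vecMul_rowV] at h1
      rw [← h1, map_sum]
      refine Finset.sum_eq_zero fun i _ => ?_
      rw [map_mul, map_mul, hε, mul_zero, zero_mul]
    · intro hb
      obtain ⟨a, ha⟩ := h.aug_right ε hε b
      rw [hb, map_zero, sub_zero] at ha
      refine ⟨Fintype.linearCombination R a, ?_⟩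
      refine LinearMap.ext fun z => ?_
      obtain ⟨n, rfl⟩ := e.surjective z
      rw [hval]
      change Fintype.linearCombination R a ((rowV v).vecMulLinear n) = _
      rw [Fintype.linearCombination_apply, Matrix.vecMulLinear_apply, ha, Finset.mul_sum]
      refine Finset.sum_congr rfl fun i _ => ?_
      rw [vecMul_rowV, smul_eq_mul, mul_assoc]
  have h1 := (LinearMap.quotKerEquivOfSurjective c hc).finrank_eq
  have hε : Function.Surjective ε.toLinearMap := fun t => ⟨algebraMap k R t, by simp⟩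
  have h2 := (LinearMap.quotKerEquivOfSurjective ε.toLinearMap hε).finrank_eq
  rw [← h1, hker, h2, Module.finrank_self]

theorem IsGPres.ext_four (h : IsGPres k R c v) (K : KData c) (hK : IsKoszul K v)
    (ℬ : ℕ → Submodule k R) (hℬ : ∀ j, ℬ j = genSpan k v ^ j) :
    Module.finrank k (Ext (ModuleCat.of R (TrivialModule ℬ)) (ModuleCat.of R R) 4) = 1 := by
  obtain ⟨ε, hε⟩ := h.exists_aug
  rw [ext_shift_finrank (k := k) (lastMap ℬ) (lastMap_surjective ℬ) _ 2,
    ext_shift_finrank (k := k) (kerMap (colV v).vecMulLinear (lastMap ℬ)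
      (h.exact34 ℬ hℬ)) (kerMap_surjective _ _ _) _ 1,
    ext_shift_finrank (k := k) (kerMap (mR c v).vecMulLinear _
      (exact_kerMap _ _ _ _ h.exact23)) (kerMap_surjective _ _ _) _ 0]
  exact top_ext_finrank h ε hε (kerMap (mD c K.D v).vecMulLinear _
    (exact_kerMap _ _ _ _ (exact12 h.rel K hK))) (kerMap_surjective _ _ _)
    (exact_kerMap _ _ _ _ (exact01 h.rel K hK)) (injective0 K hK)

theorem IsGPres.ext_ne_four (h : IsGPres k R c v) (K : KData c) (hK : IsKoszul K v)
    (hK' : IsKoszul K.op (fun i => MulOpposite.op (v i)))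
    (ℬ : ℕ → Submodule k R) (hℬ : ∀ j, ℬ j = genSpan k v ^ j) (i : ℕ) (hi : i ≠ 4) :
    Subsingleton (Ext (ModuleCat.of R (TrivialModule ℬ)) (ModuleCat.of R R) i) := by
  rcases Nat.lt_or_ge 4 i with h4 | h4
  · have := h.pd_trivial K hK ℬ hℬ
    exact HasProjectiveDimensionLT.subsingleton (ModuleCat.of R (TrivialModule ℬ)) 5 i h4
      (ModuleCat.of R R)
  · have : i < 4 := lt_of_le_of_ne h4 hi
    interval_cases i
    · exact h.ext_zero K hK' ℬ hℬ
    · exact h.ext_one K hK' ℬ hℬ
    · exact h.ext_two K hK hK' ℬ hℬ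
    · exact h.ext_three K hK ℬ hℬ

theorem IsGPres.not_pd_lt_four (h : IsGPres k R c v) (K : KData c) (hK : IsKoszul K v)
    (ℬ : ℕ → Submodule k R) (hℬ : ∀ j, ℬ j = genSpan k v ^ j) :
    ¬ HasProjectiveDimensionLT (ModuleCat.of R (TrivialModule ℬ)) 4 := by
  intro hlt
  have hs := HasProjectiveDimensionLT.subsingleton (ModuleCat.of R (TrivialModule ℬ)) 4 4 le_rfl
    (ModuleCat.of R R)
  have h1 := h.ext_four K hK ℬ hℬ
  rw [Module.finrank_zero_of_subsingleton] at h1
  exact one_ne_zero h1.symm

end Aug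

section Gldim

variable {k : Type u} [Field k] {R : Type u} [Ring R] [Algebra k R] {n m : ℕ}
  {c : Fin m → Matrix (Fin n) (Fin n) k} {v : Fin n → R}

lemma map_ev_ev {P : Type*} [AddCommGroup P] [Module k P] (β : R →ₗ[k] R →ₗ[k] P)
    (f g : Fin n → k) : β (ev v f) (ev v g) = ∑ a, ∑ b, (f a * g b) • β (v a) (v b) := by
  simp only [ev, map_sum, map_smul, LinearMap.sum_apply, LinearMap.smul_apply, mul_smul,
    Finset.smul_sum]
  rw [Finset.sum_comm]
  exact Finset.sum_congr rfl fun a _ => Finset.sum_congr rfl fun b _ => smul_comm _ _ _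

lemma sum_map_ev_ev {ι : Type*} (s : Finset ι) {P : Type*} [AddCommGroup P] [Module k P]
    (β : R →ₗ[k] R →ₗ[k] P) (f g : ι → Fin n → k) :
    ∑ i ∈ s, β (ev v (f i)) (ev v (g i)) =
      ∑ a, ∑ b, (∑ i ∈ s, f i a * g i b) • β (v a) (v b) := by
  simp only [map_ev_ev, Finset.sum_smul]
  rw [Finset.sum_comm]
  exact Finset.sum_congr rfl fun a _ => Finset.sum_comm

lemma cross_aux (A B : Fin n → k) (W X : Fin n → Fin n → k) :
    ∑ i', ∑ i, (∑ j', A j' * W j' i) * (B i' * X i' i) =
      ∑ j', A j' * ∑ i', ∑ i, B i' * W j' i * X i' i := by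
  simp only [Finset.sum_mul, Finset.mul_sum]
  symm
  rw [Finset.sum_comm]
  refine Finset.sum_congr rfl fun i' _ => ?_
  rw [Finset.sum_comm]
  exact Finset.sum_congr rfl fun i _ => Finset.sum_congr rfl fun j' _ => by ring

lemma cross01 (K : KData c) :
    Cross k (rowV v) (nat0 K v) (mD c K.D v) (nat1 K v) := by
  intro P _ _ β i j
  have h1 : ∑ s, β (mD c K.D v s j) (nat0 K v i s) =
      ∑ s, β (ev v (fun b => ∑ r, K.D r j * c r s b)) (ev v (fun e => K.U e s)) := rfl
  have h2 : ∑ s, β (rowV v i s) (nat1 K v s j) =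
      ∑ s, β (ev v (Pi.single s (1 : k)))
        (ev v (fun e => ∑ j', K.U' s j' * ∑ t, K.D j t * c t e j')) :=
    Finset.sum_congr rfl fun s _ => by rw [ev_single]; rfl
  rw [h1, h2, sum_map_ev_ev, sum_map_ev_ev]
  refine Finset.sum_congr rfl fun b _ => Finset.sum_congr rfl fun e _ => ?_
  congr 1
  have h3 : ∀ j', ∑ t, K.D j t * c t e j' =
      ∑ i', ∑ i, K.U e i' * K.U j' i * ∑ s, K.D s j * c s i' i := fun j' => K.sym j e j'
  have h4 : ∀ i, ∑ j', K.U' b j' * K.U j' i = (1 : Matrix (Fin n) (Fin n) k) b i := fun i => by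
    rw [← K.hU', Matrix.mul_apply]
  have h5 : ∑ s, (Pi.single s (1 : k) : Fin n → k) b *
      ∑ j', K.U' s j' * ∑ t, K.D j t * c t e j' =
      ∑ j', K.U' b j' * ∑ t, K.D j t * c t e j' := by
    rw [Finset.sum_eq_single b]
    · simp
    · intro s _ hs
      simp [Pi.single_apply, hs.symm]
    · simp
  rw [h5]
  simp only [h3]
  calc ∑ s, (∑ r, K.D r j * c r s b) * K.U e s
      = ∑ i', K.U e i' * ∑ s, K.D s j * c s i' b :=
        Finset.sum_congr rfl fun s _ => mul_comm _ _
    _ = ∑ i', ∑ i, (∑ j', K.U' b j' * K.U j' i) * (K.U e i' * ∑ s, K.D s j * c s i' i) := by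
        simp only [h4, Matrix.one_apply, ite_mul, one_mul, zero_mul, Finset.sum_ite_eq,
          Finset.mem_univ, if_true]
    _ = _ := cross_aux (fun j' => K.U' b j') (fun i' => K.U e i') (fun j' i => K.U j' i)
        (fun i' i => ∑ s, K.D s j * c s i' i)

lemma cross12 (K : KData c) :
    Cross k (mD c K.D v) (nat1 K v) (mR c v) (nat2 c v) := by
  intro P _ _ β i j
  have h1 : ∑ s, β (mR c v s j) (nat1 K v i s) =
      ∑ s, β (ev v (fun a => c s a j))
        (ev v (fun e => ∑ j', K.U' i j' * ∑ t, K.D s t * c t e j')) := rfl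
  have h2 : ∑ s, β (mD c K.D v i s) (nat2 c v s j) =
      ∑ s, β (ev v (fun a => ∑ r, K.D r s * c r i a)) (ev v (fun e => c s j e)) := rfl
  rw [h1, h2, sum_map_ev_ev, sum_map_ev_ev]
  refine Finset.sum_congr rfl fun a _ => Finset.sum_congr rfl fun e _ => ?_
  congr 1
  have h3 := K.cyc_inv i a j e
  simp only [KData.w] at h3
  calc ∑ s, c s a j * ∑ j', K.U' i j' * ∑ t, K.D s t * c t e j'
      = ∑ j', K.U' i j' * ∑ s, ∑ t, K.D s t * c s a j * c t e j' := by
        simp only [Finset.mul_sum]
        rw [Finset.sum_comm]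
        refine Finset.sum_congr rfl fun j' _ => Finset.sum_congr rfl fun s _ =>
          Finset.sum_congr rfl fun t _ => by ring
    _ = ∑ r, ∑ s, K.D r s * c r i a * c s j e := h3.symm
    _ = _ := by
        simp only [Finset.sum_mul]
        exact Finset.sum_comm

lemma cross23 : Cross k (mR c v) (nat2 c v) (colV v) (colV v) := by
  intro P _ _ β i j
  have h1 : ∑ s, β (colV v s j) (nat2 c v i s) =
      ∑ s, β (ev v (Pi.single s (1 : k))) (ev v (fun e => c i s e)) :=
    Finset.sum_congr rfl fun s _ => by rw [ev_single]; rfl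
  have h2 : ∑ s, β (mR c v i s) (colV v s j) =
      ∑ s, β (ev v (fun a => c i a s)) (ev v (Pi.single s (1 : k))) :=
    Finset.sum_congr rfl fun s _ => by rw [ev_single]; rfl
  rw [h1, h2, sum_map_ev_ev, sum_map_ev_ev]
  refine Finset.sum_congr rfl fun a _ => Finset.sum_congr rfl fun e _ => ?_
  congr 1
  rw [Finset.sum_eq_single a, Finset.sum_eq_single e]
  · simp
  · intro s _ hs
    simp [Pi.single_apply, hs.symm]
  · simp
  · intro s _ hs
    simp [Pi.single_apply, hs.symm]
  · simp

section LastMap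

variable (k)
variable (M : Type u) [AddCommGroup M] [Module k M] [Module R M] [IsScalarTower k R M]

lemma evMap_exact (h : IsGPres k R c v) :
    Function.Exact (dL k M (colV v) - dR k M (colV v)) (evMap (R := R) k M) := by
  have hgen : ∀ (i : Fin n) (s : R) (z : M),
      (dL k M (colV v) - dR k M (colV v)) ((Pi.single i s : Fin n → R) ⊗ₜ z) =
        (fun _ : Fin 1 => s * v i) ⊗ₜ[k] z -
          (fun _ : Fin 1 => s) ⊗ₜ[k] (v i • z) := by
    intro i s z
    rw [LinearMap.sub_apply, dL_single, dR_single, Fin.sum_univ_one, Fin.sum_univ_one]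
    congr 2
    · ext j; fin_cases j; rfl
    · ext j; fin_cases j; rfl
  have key : ∀ (r : R) (s : R) (z : M), ∃ t : (Fin n → R) ⊗[k] M,
      (dL k M (colV v) - dR k M (colV v)) t =
        (fun _ : Fin 1 => s * r) ⊗ₜ[k] z - (fun _ : Fin 1 => s) ⊗ₜ[k] (r • z) := by
    intro r
    refine h.induction (fun r => ∀ (s : R) (z : M), ∃ t : (Fin n → R) ⊗[k] M,
      (dL k M (colV v) - dR k M (colV v)) t =
        (fun _ : Fin 1 => s * r) ⊗ₜ[k] z - (fun _ : Fin 1 => s) ⊗ₜ[k] (r • z)) ?_ ?_ ?_ ?_ r
    · intro j s z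
      exact ⟨_, hgen j s z⟩
    · intro t s z
      refine ⟨0, ?_⟩
      rw [map_zero, eq_comm, sub_eq_zero, algebraMap_smul, TensorProduct.tmul_smul,
        TensorProduct.smul_tmul', ← Algebra.commutes]
      congr 1
      ext j
      exact (Algebra.smul_def t s).symm
    · intro a b iha ihb s z
      obtain ⟨t1, h1⟩ := iha s z
      obtain ⟨t2, h2⟩ := ihb s z
      refine ⟨t1 + t2, ?_⟩
      rw [map_add, h1, h2, add_smul, tmul_add]
      have : (fun _ : Fin 1 => s * (a + b)) = (fun _ : Fin 1 => s * a) + fun _ => s * b := by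
        ext j; exact mul_add _ _ _
      rw [this, add_tmul]
      abel
    · intro a b iha ihb s z
      obtain ⟨t1, h1⟩ := iha s (b • z)
      obtain ⟨t2, h2⟩ := ihb (s * a) z
      refine ⟨t2 + t1, ?_⟩
      rw [map_add, h1, h2, mul_smul, ← mul_assoc]
      abel
  intro t
  constructor
  · intro ht
    have : ∀ t : (Fin 1 → R) ⊗[k] M, ∃ u,
        (dL k M (colV v) - dR k M (colV v)) u =
          t - (fun _ : Fin 1 => (1 : R)) ⊗ₜ[k] (evMap k M t) := by
      intro t
      induction t using TensorProduct.induction_on with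
      | zero => exact ⟨0, by simp⟩
      | tmul f z =>
        obtain ⟨u, hu⟩ := key (f 0) 1 z
        refine ⟨u, ?_⟩
        rw [hu, evMap_tmul, one_mul]
        congr 2
        ext j; fin_cases j; rfl
      | add a b ha hb =>
        obtain ⟨u, hu⟩ := ha
        obtain ⟨v, hv⟩ := hb
        refine ⟨u + v, ?_⟩
        rw [map_add, hu, hv, map_add, tmul_add]
        abel
    obtain ⟨u, hu⟩ := this t
    rw [ht, tmul_zero, sub_zero] at hu
    exact ⟨u, hu⟩
  · rintro ⟨u, rfl⟩
    refine hom_ext_single (F := (((evMap k M).comp (dL k M (colV v) -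
      dR k M (colV v))).toAddMonoidHom : _ →+ M)) (G := 0) (fun i s z => ?_) u
    have : evMap k M ((dL k M (colV v) - dR k M (colV v))
        ((Pi.single i s : Fin n → R) ⊗ₜ z)) = 0 := by
      rw [hgen, map_sub, evMap_tmul, evMap_tmul, mul_smul, sub_self]
    exact this

end LastMap

theorem IsGPres.pd_le (h : IsGPres k R c v) (K : KData c) (hK : IsKoszul K v)
    (M : ModuleCat.{u} R) : HasProjectiveDimensionLE M 4 := by
  let := h.gradedAlgebra
  let : Module k M := Module.compHom M (algebraMap k R)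
  have : IsScalarTower k R M := IsScalarTower.of_algebraMap_smul fun _ _ => rfl
  have g0 : ∀ i j, rowV v i j ∈ powGrading k v 1 := fun i j => mem_one_of_mem (rowV_mem i j)
  have g1 : ∀ i j, mD c K.D v i j ∈ powGrading k v 1 := fun i j => mem_one_of_mem (mD_mem i j)
  have g2 : ∀ i j, mR c v i j ∈ powGrading k v 1 := fun i j => mem_one_of_mem (mR_mem i j)
  have g3 : ∀ i j, colV v i j ∈ powGrading k v 1 := fun i j => mem_one_of_mem (colV_mem i j)
  have e0 := injective_perturbed (M := M) (powGrading k v) (rowV v) (nat0 K v) g0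
    (injective0 K hK)
  have e1 := exact_perturbed (M := M) (powGrading k v) (rowV v) (nat0 K v)
    (mD c K.D v) (nat1 K v) g0 g1 (exact01 h.rel K hK) (rowV_mul_mD c K.D v h.rel)
    (natl01 K v h.rel) (cross01 K) 1 (by norm_num)
  have e2 := exact_perturbed (M := M) (powGrading k v) (mD c K.D v) (nat1 K v)
    (mR c v) (nat2 c v) g1 g2 (exact12 h.rel K hK) (mD_mul_mR K v h.rel)
    (natl12 K v h.rel) (cross12 K) (-1) (by norm_num)
  have e3 := exact_perturbed (M := M) (powGrading k v) (mR c v) (nat2 c v)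
    (colV v) (colV v) g2 g3 h.exact23 (mR_mul_colV c v h.rel)
    (natl23 v h.rel) cross23 1 (by norm_num)
  have e4 := evMap_exact k M h
  simp only [one_smul, neg_smul, sub_neg_eq_add, ← sub_eq_add_neg] at e1 e2 e3
  exact pd_le_four _ _ _ _ _ e0 e1 e2 e3 e4 (evMap_surjective k M)

end Gldim

section Growth

variable {k : Type u} [Field k] {R : Type u} [Ring R] [Algebra k R] {n m : ℕ}
  {c : Fin m → Matrix (Fin n) (Fin n) k} {v : Fin n → R}

lemma finite_powGrading (j : ℕ) : Module.Finite k (powGrading k v j) := by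
  rw [Module.Finite.iff_fg]
  exact Submodule.FG.pow (Submodule.fg_span (Set.finite_range v)) j

lemma IsGPres.degMap_surj (h : IsGPres k R c v) (j : ℕ) :
    let := h.gradedAlgebra
    LinearMap.range (degMap (powGrading k v) (colV v)
      (fun i j => mem_one_of_mem (colV_mem i j)) j) = ⊤ := by
  intro inst
  rw [LinearMap.range_eq_top]
  intro b
  have hmem : (b 0 : R) ∈ augIdeal (powGrading k v) :=
    Submodule.subset_span ⟨j + 1, Nat.succ_pos j, (b 0).2⟩
  have h1 : lastMap (powGrading k v) (fun _ => (b 0 : R)) = 0 := by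
    change (augIdeal (powGrading k v)).mkQ (b 0 : R) = 0
    rw [Submodule.mkQ_apply, Submodule.Quotient.mk_eq_zero]
    exact hmem
  obtain ⟨c, hc⟩ := (h.exact34 (powGrading k v) (fun _ => rfl) _).mp h1
  rw [Matrix.vecMulLinear_apply] at hc
  refine ⟨fun i => ⟨pr (powGrading k v) (j + 1) (c i),
    pr_mem (powGrading k v) (j + 1) (c i)⟩, ?_⟩
  ext i
  fin_cases i
  rw [coe_degMap]
  change Matrix.vecMul (fun l => pr (powGrading k v) (j + 1) (c l)) (colV v) 0 = _
  rw [← pr_vecMul (powGrading k v) (colV v)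
    (fun i j => mem_one_of_mem (colV_mem i j)) c (j + 1), hc]
  exact pr_of_mem (powGrading k v) (j := j + 2) (b 0).2

lemma opGrading_powGrading (j : ℕ) : opGrading (powGrading k v) j =
    genSpan k (fun i => MulOpposite.op (v i)) ^ j := by
  unfold opGrading powGrading genSpan
  refine (Submodule.map_op_pow _ _).trans ?_
  congr 1
  refine (Submodule.map_span _ _).trans ?_
  congr 1
  ext a
  simp only [Set.mem_image, Set.mem_range]
  constructor
  · rintro ⟨_, ⟨i, rfl⟩, rfl⟩
    exact ⟨i, rfl⟩
  · rintro ⟨i, rfl⟩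
    exact ⟨_, ⟨i, rfl⟩, rfl⟩

theorem IsGPres.isLeftRegular (h : IsGPres k R c v) (K : KData c) (hK : IsKoszul K v)
    (hK' : IsKoszul K.op (fun i => MulOpposite.op (v i)))
    (ℬ : ℕ → Submodule k R) (hℬ : ∀ j, ℬ j = genSpan k v ^ j) : IsLeftRegular ℬ 4 where
  gldim_le := fun M => h.pd_le K hK M
  gldim_ge := ⟨_, h.not_pd_lt_four K hK ℬ hℬ⟩
  ext_eq_zero := h.ext_ne_four K hK hK' ℬ hℬ
  ext_finrank := h.ext_four K hK ℬ hℬ

lemma IsGPres.nontrivial (h : IsGPres k R c v) : Nontrivial R := by
  obtain ⟨ε, -⟩ := h.exists_aug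
  exact ε.toRingHom.domain_nontrivial

/-- transport along an isomorphism -/
lemma IsKoszul.map {K : KData c} (hK : IsKoszul K v) {S : Type u} [Ring S] [Algebra k S]
    (ρ : R ≃ₐ[k] S) : IsKoszul K (fun i => ρ (v i)) := by
  have hev : ∀ l : Fin n → k, ev (fun i => ρ (v i)) l = ρ (ev v l) := fun l => by
    simp only [ev, map_sum, map_smul]
  have hD : ∀ (a : Fin n → S), Matrix.vecMul a (mD c K.D (fun i => ρ (v i))) =
      fun s => ρ (Matrix.vecMul (fun i => ρ.symm (a i)) (mD c K.D v) s) := by
    intro a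
    ext s
    simp only [Matrix.vecMul, dotProduct, mD_apply, hev, map_sum, map_mul,
      AlgEquiv.apply_symm_apply]
  have hR : ∀ (a : Fin m → S), Matrix.vecMul a (mR c (fun i => ρ (v i))) =
      fun s => ρ (Matrix.vecMul (fun i => ρ.symm (a i)) (mR c v) s) := by
    intro a
    ext s
    simp only [Matrix.vecMul, dotProduct, mR_apply, hev, map_sum, map_mul,
      AlgEquiv.apply_symm_apply]
  refine ⟨fun a ha => ?_, fun a ha => ?_, fun b hb => ?_⟩
  · have h1 := hK.inj (ρ.symm a) fun i => by
      apply ρ.injective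
      rw [map_mul, AlgEquiv.apply_symm_apply, ha, map_zero]
    rw [← AlgEquiv.apply_symm_apply ρ a, h1, map_zero]
  · obtain ⟨e, he⟩ := hK.ex01 (fun i => ρ.symm (a i)) (by
      ext s
      apply ρ.injective
      rw [← congrFun (hD a) s, ha, Pi.zero_apply, Pi.zero_apply, map_zero])
    refine ⟨ρ e, fun i => ?_⟩
    rw [← map_mul, ← he, AlgEquiv.apply_symm_apply]
  · obtain ⟨e, he⟩ := hK.ex12 (fun i => ρ.symm (b i)) (by
      ext s
      apply ρ.injective
      rw [← congrFun (hR b) s, hb, Pi.zero_apply, Pi.zero_apply, map_zero])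
    refine ⟨fun i => ρ (e i), ?_⟩
    rw [hD]
    ext s
    simp only [AlgEquiv.symm_apply_apply]
    rw [← congrFun he s, AlgEquiv.apply_symm_apply]

/-- The opposite of the opposite data, as a condition on the algebra. -/
lemma isKoszul_op_op (K : KData c) (hK : IsKoszul K v) :
    IsKoszul K.op.op (fun i => MulOpposite.op (MulOpposite.op (v i))) := by
  have h := hK.map (AlgEquiv.opOp k R)
  exact ⟨h.inj, h.ex01, h.ex12⟩

end Growth

section Main

variable {k : Type u} [Field k] {R : Type u} [Ring R] [Algebra k R]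
  {c : Fin 6 → Matrix (Fin 4) (Fin 4) k} {v : Fin 4 → R}

theorem IsGPres.hilbert (h : IsGPres k R c v) (K : KData c) (hK : IsKoszul K v) (j : ℕ) :
    finrank k (powGrading k v (j + 4)) + 6 * finrank k (powGrading k v (j + 2)) +
      finrank k (powGrading k v j) =
    4 * finrank k (powGrading k v (j + 3)) + 4 * finrank k (powGrading k v (j + 1)) := by
  let := h.gradedAlgebra
  have hfin : ∀ j, Module.Finite k (powGrading k v j) := finite_powGrading
  have g0 : ∀ i j, rowV v i j ∈ powGrading k v 1 := fun i j => mem_one_of_mem (rowV_mem i j)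
  have g1 : ∀ i j, mD c K.D v i j ∈ powGrading k v 1 := fun i j => mem_one_of_mem (mD_mem i j)
  have g2 : ∀ i j, mR c v i j ∈ powGrading k v 1 := fun i j => mem_one_of_mem (mR_mem i j)
  have g3 : ∀ i j, colV v i j ∈ powGrading k v 1 := fun i j => mem_one_of_mem (colV_mem i j)
  have e1 := degMap_rank (powGrading k v) (rowV v) (mD c K.D v) g0 g1 (exact01 h.rel K hK) j
  have e2 := degMap_rank (powGrading k v) (mD c K.D v) (mR c v) g1 g2 (exact12 h.rel K hK)
    (j + 1)
  have e3 := degMap_rank (powGrading k v) (mR c v) (colV v) g2 g3 h.exact23 (j + 2)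
  have e4 : finrank k (LinearMap.range (degMap (powGrading k v) (colV v) g3
      (j + 2 + 1))) = finrank k (powGrading k v (j + 4)) := by
    rw [h.degMap_surj, finrank_top, Module.finrank_pi_fintype]
    simp
  have hinj : Function.Injective (degMap (powGrading k v) (rowV v) g0 j) := by
    rw [injective_iff_map_eq_zero]
    intro a ha
    have h1 : (rowV v).vecMulLinear (fun l => (a l : R)) = 0 := by
      rw [Matrix.vecMulLinear_apply]
      ext i
      rw [← coe_degMap (powGrading k v) _ g0, ha]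
      rfl
    have h2 := (injective_iff_map_eq_zero (rowV v).vecMulLinear).mp (injective0 K hK) _ h1
    ext i
    exact congrFun h2 i
  have e0 : finrank k (LinearMap.range (degMap (powGrading k v) (rowV v) g0 j)) =
      finrank k (powGrading k v j) := by
    rw [LinearMap.finrank_range_of_inj hinj, Module.finrank_pi_fintype]
    simp
  rw [e0] at e1
  rw [e4] at e3
  have e2' : finrank k (LinearMap.range (degMap (powGrading k v) (mR c v) g2
      (j + 2))) + finrank k (LinearMap.range (degMap (powGrading k v) (mD c K.D v) g1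
      (j + 1))) = 6 * finrank k (powGrading k v (j + 2)) := e2
  have e3' : finrank k (powGrading k v (j + 4)) + finrank k (LinearMap.range (degMap
      (powGrading k v) (mR c v) g2 (j + 2))) = 4 * finrank k (powGrading k v (j + 3)) := e3
  omega

theorem IsGPres.isASRegular (h : IsGPres k R c v) (K : KData c) (hK : IsKoszul K v)
    (hK' : IsKoszul K.op (fun i => MulOpposite.op (v i))) :
    IsASRegular (powGrading k v) 4 where
  connected := pow_zero _
  nontrivial := h.nontrivial
  finite := finite_powGrading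
  growth := growth_of_rec _ (h.hilbert K hK)
  left := h.isLeftRegular K hK hK' _ (fun _ => rfl)
  right := h.op.isLeftRegular K.op hK' (isKoszul_op_op K hK) _ opGrading_powGrading

theorem IsGPres.finrank_eq (h : IsGPres k R c v) (K : KData c) (hK : IsKoszul K v)
    (hK' : IsKoszul K.op (fun i => MulOpposite.op (v i))) (n : ℕ) :
    finrank k (powGrading k v n) = (n + 3).choose 3 := by
  let := h.gradedAlgebra
  have hfin : ∀ j, Module.Finite k (powGrading k v j) := finite_powGrading
  have hnt : Nontrivial R := h.nontrivial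
  have g0 : ∀ i j, rowV v i j ∈ powGrading k v 1 := fun i j => mem_one_of_mem (rowV_mem i j)
  have g1 : ∀ i j, mD c K.D v i j ∈ powGrading k v 1 := fun i j => mem_one_of_mem (mD_mem i j)
  have g2 : ∀ i j, mR c v i j ∈ powGrading k v 1 := fun i j => mem_one_of_mem (mR_mem i j)
  have g3 : ∀ i j, colV v i j ∈ powGrading k v 1 := fun i j => mem_one_of_mem (colV_mem i j)
  have a0 : finrank k (powGrading k v 0) = 1 := by
    have : powGrading k v 0 = 1 := pow_zero _
    rw [this, Submodule.one_eq_span, finrank_span_singleton one_ne_zero]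
  have s : ∀ j, finrank k (LinearMap.range (degMap (powGrading k v) (colV v) g3
      j)) = finrank k (powGrading k v (j + 1)) := by
    intro j
    rw [h.degMap_surj, finrank_top, Module.finrank_pi_fintype]
    simp
  have a1 : finrank k (powGrading k v 1) = 4 := by
    rw [← s 0, degMap_rank_zero (powGrading k v) (mR c v) (colV v) g2 g3 h.exact23, a0]
  have r1 := degMap_rank_zero (powGrading k v) (rowV v) (mD c K.D v) g0 g1
    (exact01 h.rel K hK)
  have r2 := degMap_rank_zero (powGrading k v) (mD c K.D v) (mR c v) g1 g2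
    (exact12 h.rel K hK)
  rw [a0] at r1 r2
  have e2 := degMap_rank (powGrading k v) (mR c v) (colV v) g2 g3 h.exact23 0
  rw [s (0 + 1), r2] at e2
  have a2 : finrank k (powGrading k v 2) = 10 := by
    have e2' : finrank k (powGrading k v 2) + 6 * 1 = 4 * finrank k (powGrading k v 1) := e2
    omega
  have e3 := degMap_rank (powGrading k v) (mD c K.D v) (mR c v) g1 g2 (exact12 h.rel K hK) 0
  rw [r1] at e3
  have e4 := degMap_rank (powGrading k v) (mR c v) (colV v) g2 g3 h.exact23 1
  rw [s (1 + 1)] at e4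
  have a3 : finrank k (powGrading k v 3) = 20 := by
    have e3' : finrank k (LinearMap.range (degMap (powGrading k v) (mR c v) g2 1)) + 4 * 1 =
      6 * finrank k (powGrading k v 1) := e3
    have e4' : finrank k (powGrading k v 3) + finrank k (LinearMap.range (degMap
      (powGrading k v) (mR c v) g2 1)) = 4 * finrank k (powGrading k v 2) := e4
    omega
  exact choose_of_rec (fun j => finrank k (powGrading k v j)) (h.hilbert K hK) a0 a1 a2 a3 n

end Main

end Pool.Agent.GQA
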