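import Pool.Agent.GQA.N19a
import Pool.Agent.GQA.N19b
import Pool.Agent.GQA.N2
import Pool.Agent.GQA.Reg
import Pool.Agent.Gsc.NinPt
import Pool.Agent.Gsc.TwoPt

/-!
# Regularity of the two algebras
-/

set_option linter.unusedSimpArgs false
set_option linter.unusedVariables false
set_option linter.unusedSectionVars false

universe u

open Pool.Agent.MP_a6a2ff_al (IsASRegular IsQuadratic)
open Pool.Agent.Gsc (r19 r2)

namespace Pool.Agent.GQA

section Gauss

variable {k : Type u} [Field k]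

/-- the ring homomorphism from the Gaussian integers given by a square root of `-1` -/
noncomputable def gi (x : k) (hx : x * x = -1) : GaussianInt →+* k :=
  Zsqrtd.lift ⟨x, by rw [hx]; push_cast; rfl⟩

lemma gi_apply (x : k) (hx : x * x = -1) (z : GaussianInt) :
    gi x hx z = (z.re : k) + z.im * x := rfl

end Gauss

section N19

variable {k : Type u} [Field k] (x : k) (hx : x * x = -1) (h2 : (2 : k) ≠ 0)

include h2 in
lemma gi_two : gi x hx ⟨2, 0⟩ ≠ 0 := by
  rw [gi_apply]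
  push_cast
  rw [zero_mul, add_zero]
  exact h2

lemma dd_ne (hx : x * x = -1) (h2 : (2 : k) ≠ 0) : gi x hx N19a.dd ≠ 0 := by
  refine map_ne_of_mul (gi_two x hx h2) (s := N19a.dd) (t := N19a.dd) (n := 2) ?_
  decide +kernel

lemma mc_r19 : mc (gi x hx) N19a.c = r19 x := by
  ext r i j
  rw [mc_apply, gi_apply]
  fin_cases r <;> fin_cases i <;> fin_cases j <;> simp [N19a.c, r19] <;> ring

lemma mc_b : (fun r => (mc (gi x hx) N19a.c r).transpose) = mc (gi x hx) N19b.c := by
  ext r i j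
  rw [Matrix.transpose_apply, mc_apply, mc_apply]
  congr 1
  revert r i j
  decide +kernel

lemma mp_Db : mp (gi x hx) N19a.D = mp (gi x hx) N19b.D := by
  have h : N19a.D = N19b.D := rfl
  rw [h]

variable {R : Type u} [Ring R] [Algebra k R] {v : Fin 4 → R}

include h2 in
theorem koszul19 (h : IsGPres k R (mc (gi x hx) N19a.c) v) :
    ∃ K : KData (mc (gi x hx) N19a.c), IsKoszul K v ∧
      IsKoszul K.op (fun i => MulOpposite.op (v i)) := by
  refine ⟨N19a.kc.kdata (gi x hx) (dd_ne x hx h2), ?_⟩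
  obtain ⟨a1, a2, a3⟩ := N19a.exact (gi x hx) (gi_two x hx h2) h
  have ho := h.op
  rw [mc_b x hx] at ho
  obtain ⟨b1, b2, b3⟩ := N19b.exact (gi x hx) (gi_two x hx h2) ho
  have e1 : mD (fun r => (mc (gi x hx) N19a.c r).transpose)
      (N19a.kc.kdata (gi x hx) (dd_ne x hx h2)).op.D (fun i => MulOpposite.op (v i)) =
      mD (mc (gi x hx) N19b.c) (mp (gi x hx) N19b.D) (fun i => MulOpposite.op (v i)) := by
    rw [KCert.kdata_op_D, mc_b x hx, mp_Db x hx]
  refine ⟨⟨a1, a2, a3⟩, ⟨b1, ?_, ?_⟩⟩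
  · rw [e1]; exact b2
  · rw [e1, mc_b x hx]; exact b3

include hx h2 in
/-- The algebra with the relations `r19` is quadratic, regular and has the expected Hilbert
function. -/
theorem regular19 (h : IsGPres k R (r19 x) v) :
    IsQuadratic (powGrading k v) ∧ IsASRegular (powGrading k v) 4 ∧
      ∀ n, Module.finrank k (powGrading k v n) = (n + 3).choose 3 := by
  rw [← mc_r19 x hx] at h
  obtain ⟨K, hK, hK'⟩ := koszul19 x hx h2 h
  exact ⟨h.isQuadratic, h.isASRegular K hK hK', h.finrank_eq K hK hK'⟩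

end N19

section N2

variable {k : Type u} [Field k] (x : k) (hx : x * x = -1) (h2 : (2 : k) ≠ 0) (h5 : (5 : k) ≠ 0)

include h2 h5 in
lemma gi_ten : gi x hx ⟨10, 0⟩ ≠ 0 := by
  rw [gi_apply]
  push_cast
  rw [zero_mul, add_zero, show (10 : k) = 2 * 5 by norm_num]
  exact mul_ne_zero h2 h5

lemma dd_ne2 (hx : x * x = -1) (h2 : (2 : k) ≠ 0) (h5 : (5 : k) ≠ 0) : gi x hx N2.dd ≠ 0 := by
  refine map_ne_of_mul (gi_ten x hx h2 h5) (s := N2.dd) (t := ⟨20, 0⟩) (n := 2) ?_
  decide +kernel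

lemma mc_r2 : mc (gi x hx) N2.c = r2 x := by
  ext r i j
  rw [mc_apply, gi_apply]
  fin_cases r <;> fin_cases i <;> fin_cases j <;> simp [N2.c, r2] <;> ring

lemma mc_b2 : (fun r => (mc (gi x hx) N2.c r).transpose) = mc (gi x hx) N2.c := by
  ext r i j
  rw [Matrix.transpose_apply, mc_apply, mc_apply]
  congr 1
  revert r i j
  decide +kernel

variable {R : Type u} [Ring R] [Algebra k R] {v : Fin 4 → R}

include h2 h5 in
theorem koszul2 (h : IsGPres k R (mc (gi x hx) N2.c) v) :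
    ∃ K : KData (mc (gi x hx) N2.c), IsKoszul K v ∧
      IsKoszul K.op (fun i => MulOpposite.op (v i)) := by
  refine ⟨N2.kc.kdata (gi x hx) (dd_ne2 x hx h2 h5), ?_⟩
  obtain ⟨a1, a2, a3⟩ := N2.exact (gi x hx) (gi_ten x hx h2 h5) h
  have ho := h.op
  rw [mc_b2 x hx] at ho
  obtain ⟨b1, b2, b3⟩ := N2.exact (gi x hx) (gi_ten x hx h2 h5) ho
  have e1 : mD (fun r => (mc (gi x hx) N2.c r).transpose)
      (N2.kc.kdata (gi x hx) (dd_ne2 x hx h2 h5)).op.D (fun i => MulOpposite.op (v i)) =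
      mD (mc (gi x hx) N2.c) (mp (gi x hx) N2.D) (fun i => MulOpposite.op (v i)) := by
    rw [KCert.kdata_op_D, mc_b2 x hx]
  refine ⟨⟨a1, a2, a3⟩, ⟨b1, ?_, ?_⟩⟩
  · rw [e1]; exact b2
  · rw [e1, mc_b2 x hx]; exact b3

include hx h2 h5 in
/-- The algebra with the relations `r2` is quadratic, regular and has the expected Hilbert
function. -/
theorem regular2 (h : IsGPres k R (r2 x) v) :
    IsQuadratic (powGrading k v) ∧ IsASRegular (powGrading k v) 4 ∧
      ∀ n, Module.finrank k (powGrading k v n) = (n + 3).choose 3 := by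
  rw [← mc_r2 x hx] at h
  obtain ⟨K, hK, hK'⟩ := koszul2 x hx h2 h5 h
  exact ⟨h.isQuadratic, h.isASRegular K hK hK', h.finrank_eq K hK hK'⟩

end N2

end Pool.Agent.GQA
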